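import Pool.Agent.H965.Both.Stat
import Pool.Graph.R_seed8.H988R2.Perc.T24
import Pool.Graph.R_seed8.H988R2.Perc.T23
import Pool.Graph.R_seed8.H981R2.TP.C12

/-!
The law of the state of a strip with wired left wall: finite sums and convergence.
-/

set_option autoImplicit false

namespace Pool.Agent.H965.Both

open Pool.Agent.H988R2.Perc hiding X
open Pool.Agent.H988R2.Perc.T23 Finset Filter Topology

/-- the first tile is always applied -/
def force (c : ℕ → ℕ → Bool) (k i : ℕ) : Bool := if i = 1 then true else c k i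

/-- the law of the state with wired left wall -/
noncomputable def law1 (L M : ℕ) : St →₀ ℂ := (T1 L)^[M] (Finsupp.single St.bot 1)

theorem force_insert (t : Finset (ℕ × ℕ)) (k i i' : ℕ) (h : i ≠ i') :
    force (actBit (bits (insert (k, i') t))) k i = force (actBit (bits t)) k i := by
  unfold force
  rw [actBit_insert t k i i' h]

theorem tile1_step (S : Finset (ℕ × ℕ)) (k i : ℕ) (hS : (k, i) ∉ S)
    (Y : Finset (ℕ × ℕ) → St) (hY : ∀ t, Y (insert (k, i) t) = Y t) :
    tile1 i (∑ t ∈ S.powerset, Finsupp.single (Y t) (1:ℂ)) =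
      (1/2 : ℂ) • ∑ t ∈ (insert (k, i) S).powerset,
        Finsupp.single (if force (actBit (bits t)) k i then St.act i (Y t) else Y t) (1:ℂ) := by
  unfold tile1
  split_ifs with h
  · subst h
    rw [Finset.sum_powerset_insert hS, mapDomain_sum_single]
    have e1 : ∑ t ∈ S.powerset, Finsupp.single
        (if force (actBit (bits t)) k 1 then St.act 1 (Y t) else Y t) (1:ℂ) =
        ∑ t ∈ S.powerset, Finsupp.single (St.act 1 (Y t)) (1:ℂ) := by
      refine Finset.sum_congr rfl fun t _ => ?_
      simp [force]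
    have e2 : ∑ t ∈ S.powerset, Finsupp.single
        (if force (actBit (bits (insert (k, 1) t))) k 1 then St.act 1 (Y (insert (k, 1) t))
          else Y (insert (k, 1) t)) (1:ℂ) =
        ∑ t ∈ S.powerset, Finsupp.single (St.act 1 (Y t)) (1:ℂ) := by
      refine Finset.sum_congr rfl fun t _ => ?_
      simp [force, hY]
    rw [e1, e2, ← two_smul ℂ, smul_smul]
    norm_num
  · rw [tile_step S k i hS Y hY]
    congr 1
    refine Finset.sum_congr rfl fun t _ => ?_
    simp [force, h]

theorem fwd1_step (n : ℕ) (S : Finset (ℕ × ℕ)) (k : ℕ) (hS : ∀ i, 1 ≤ i → i ≤ n → (k, i) ∉ S)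
    (Y : Finset (ℕ × ℕ) → St) (hY : ∀ i t, 1 ≤ i → i ≤ n → Y (insert (k, i) t) = Y t) :
    fwd1 n (∑ t ∈ S.powerset, Finsupp.single (Y t) (1:ℂ)) =
      ((1/2 : ℂ))^n • ∑ t ∈ (S ∪ row k n).powerset,
        Finsupp.single (fwdS n (force (actBit (bits t)) k) (Y t)) (1:ℂ) := by
  induction n with
  | zero =>
    have : S ∪ row k 0 = S := by
      ext j; simp only [mem_union, mem_row]; constructor
      · rintro (h | h)
        · exact h
        · omega
      · exact Or.inl
    simp [fwd1, fwdS, this]
  | succ n ih =>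
    simp only [fwd1]
    rw [ih (fun i h1 h2 => hS i h1 (by omega)) (fun i t h1 h2 => hY i t h1 (by omega)),
      tile1_smul, row_succ]
    have hn : (k, n+1) ∉ S ∪ row k n := by
      simp only [mem_union, mem_row, not_or]
      exact ⟨hS (n+1) (by omega) le_rfl, by omega⟩
    rw [tile1_step (S ∪ row k n) k (n+1) hn
      (fun t => fwdS n (force (actBit (bits t)) k) (Y t)) (by
        intro t
        rw [hY (n+1) t (by omega) le_rfl]
        exact fwdS_congr n _ _ _ (fun i _ h2 => force_insert t k i (n+1) (by omega)))]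
    rw [smul_smul, pow_succ]
    rfl

theorem bwd1_step (n : ℕ) (S : Finset (ℕ × ℕ)) (k : ℕ) (hS : ∀ i, 1 ≤ i → i ≤ n → (k, i) ∉ S)
    (Y : Finset (ℕ × ℕ) → St) (hY : ∀ i t, 1 ≤ i → i ≤ n → Y (insert (k, i) t) = Y t) :
    bwd1 n (∑ t ∈ S.powerset, Finsupp.single (Y t) (1:ℂ)) =
      ((1/2 : ℂ))^n • ∑ t ∈ (S ∪ row k n).powerset,
        Finsupp.single (bwdS n (force (actBit (bits t)) k) (Y t)) (1:ℂ) := by
  induction n generalizing S Y with
  | zero =>
    have : S ∪ row k 0 = S := by
      ext j; simp only [mem_union, mem_row]; constructor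
      · rintro (h | h)
        · exact h
        · omega
      · exact Or.inl
    simp [bwd1, bwdS, this]
  | succ n ih =>
    simp only [bwd1]
    rw [tile1_step S k (n+1) (hS (n+1) (by omega) le_rfl) Y
      (fun t => hY (n+1) t (by omega) le_rfl), bwd1_smul]
    rw [ih (insert (k, n+1) S) ?_
      (fun t => if force (actBit (bits t)) k (n+1) then St.act (n+1) (Y t) else Y t) ?_]
    · rw [smul_smul, row_succ', pow_succ']
      rfl
    · intro i h1 h2 h
      rw [mem_insert] at h
      rcases h with h | h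
      · simp only [Prod.mk.injEq] at h; omega
      · exact hS i h1 (by omega) h
    · intro i t h1 h2
      rw [hY i t h1 (by omega), force_insert t k (n+1) i (by omega)]

theorem law1_eq (L M : ℕ) : law1 L M =
    ((1/2 : ℂ))^(2*M*L) • ∑ t ∈ (SS L M).powerset,
      Finsupp.single (Pool.Agent.H988R2.Perc.X L (force (actBit (bits t))) M) (1:ℂ) := by
  induction M with
  | zero =>
    have : SS L 0 = ∅ := by simp [SS]
    simp [law1, this, Pool.Agent.H988R2.Perc.X]
  | succ M ih =>
    have h1 : law1 L (M+1) = T1 L (law1 L M) := by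
      unfold law1; rw [Function.iterate_succ_apply']
    rw [h1, ih]
    unfold T1
    rw [Finsupp.mapDomain_smul, mapDomain_sum_single, fwd1_smul,
      fwd1_step L (SS L M) (2*M) (fun i _ _ h => by rw [mem_SS] at h; simp at h)
        (fun t => St.ins 0 (Pool.Agent.H988R2.Perc.X L (force (actBit (bits t))) M)) ?_,
      bwd1_smul, bwd1_smul,
      bwd1_step L (SS L M ∪ row (2*M) L) (2*M+1)
        (fun i _ _ h => by
          rw [mem_union, mem_SS, mem_row] at h
          simp only at h
          omega)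
        (fun t => fwdS L (force (actBit (bits t)) (2*M))
          (St.ins 0 (Pool.Agent.H988R2.Perc.X L (force (actBit (bits t))) M))) ?_,
      Finsupp.mapDomain_smul, Finsupp.mapDomain_smul, Finsupp.mapDomain_smul,
      mapDomain_sum_single, ← SS_succ, smul_smul, smul_smul]
    · congr 1
      rw [← pow_add, ← pow_add]
      congr 1
      ring
    · intro i t _ _
      have e1 : ∀ k i', k ≠ 2*M+1 → force (actBit (bits (insert (2*M+1, i) t))) k i' =
          force (actBit (bits t)) k i' := by
        intro k i' hk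
        simp [force, actBit, bits, hk]
      rw [X_congr L _ (force (actBit (bits t))) M (fun k i' hk _ _ => e1 k i' (by omega)),
        fwdS_congr L _ (force (actBit (bits t)) (2*M)) _ (fun i' _ _ => e1 _ i' (by omega))]
    · intro i t _ _
      have e1 : ∀ k i', k ≠ 2*M → force (actBit (bits (insert (2*M, i) t))) k i' =
          force (actBit (bits t)) k i' := by
        intro k i' hk
        simp [force, actBit, bits, hk]
      rw [X_congr L _ (force (actBit (bits t))) M (fun k i' hk _ _ => e1 k i' (by omega))]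

/-! ### convergence -/

open T24

/-- the branch with an open edge -/
def goodo (i : ℕ) (R : St) : St := if i % 2 = 1 then St.act i R else R

theorem dob_tile_o (i : ℕ) : Dob (tile i) (goodo i) (1/2) where
  pos := by norm_num
  le := by norm_num
  add := (dob_tile i).add
  smul := (dob_tile i).smul
  mass := (dob_tile i).mass
  dec f := by
    have hh : ((1/2 : ℝ) : ℂ) = (1/2 : ℂ) := by push_cast; rfl
    have hn : ‖(1/2 : ℂ)‖ = 1/2 := by norm_num
    by_cases hi : i % 2 = 1
    · have e : tile i f - ((1/2 : ℝ) : ℂ) • Finsupp.mapDomain (goodo i) f = (1/2 : ℂ) • f := by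
        have : goodo i = St.act i := by funext R; simp [goodo, hi]
        rw [this, hh]
        unfold tile
        rw [smul_add]
        abel
      rw [e, nrm_smul, hn]
      linarith
    · have e : tile i f - ((1/2 : ℝ) : ℂ) • Finsupp.mapDomain (goodo i) f =
          (1/2 : ℂ) • Finsupp.mapDomain (St.act i) f := by
        have : goodo i = id := by funext R; simp [goodo, hi]
        rw [this, hh, Finsupp.mapDomain_id]
        unfold tile
        rw [smul_add]
        abel
      rw [e, nrm_smul, hn]
      have := nrm_mapDomain_le (St.act i) f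
      linarith

theorem dob_tile1 (i : ℕ) : Dob (tile1 i) (goodo i) (1/2) := by
  by_cases h : i = 1
  · subst h
    have e : tile1 1 = Finsupp.mapDomain (St.act 1) := by
      funext f; unfold tile1; rw [if_pos rfl]
    have e2 : goodo 1 = St.act 1 := by funext R; simp [goodo]
    rw [e, e2]
    have h1 := dob_map (St.act 1)
    refine ⟨by norm_num, by norm_num, h1.add, h1.smul, h1.mass, fun f => ?_⟩
    have e3 : Finsupp.mapDomain (St.act 1) f - ((1/2 : ℝ) : ℂ) • Finsupp.mapDomain (St.act 1) f =
        (1/2 : ℂ) • Finsupp.mapDomain (St.act 1) f := by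
      have hh : ((1/2 : ℝ) : ℂ) = (1/2 : ℂ) := by push_cast; rfl
      rw [hh]
      have : Finsupp.mapDomain (St.act 1) f = (1:ℂ) • Finsupp.mapDomain (St.act 1) f := by
        rw [one_smul]
      nth_rewrite 1 [this]
      rw [← sub_smul]
      norm_num
    rw [e3, nrm_smul]
    have hn : ‖(1/2 : ℂ)‖ = 1/2 := by norm_num
    rw [hn]
    have := nrm_mapDomain_le (St.act 1) f
    linarith
  · have e : tile1 i = tile i := by
      funext f; unfold tile1; rw [if_neg h]
    rw [e]
    exact dob_tile_o i

/-- the open branch of a forward row -/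
def gfwdo : ℕ → St → St
  | 0, R => R
  | L+1, R => goodo (L+1) (gfwdo L R)

/-- the open branch of a backward row -/
def gbwdo : ℕ → St → St
  | 0, R => R
  | L+1, R => gbwdo L (goodo (L+1) R)

theorem dob_fwd1 (L : ℕ) : Dob (fwd1 L) (gfwdo L) ((1/2)^L) := by
  induction L with
  | zero =>
    have h := dob_map (fun R => R)
    have e : (Finsupp.mapDomain (fun R : St => R) : (St →₀ ℂ) → (St →₀ ℂ)) = fwd1 0 := by
      funext f
      exact Finsupp.mapDomain_id
    rw [e] at h
    have e2 : gfwdo 0 = (fun R => R) := rfl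
    rw [e2, pow_zero]
    exact h
  | succ L ih =>
    have h := (dob_tile1 (L+1)).comp ih
    rw [pow_succ, mul_comm]
    exact h

theorem dob_bwd1 (L : ℕ) : Dob (bwd1 L) (gbwdo L) ((1/2)^L) := by
  induction L with
  | zero =>
    have h := dob_map (fun R => R)
    have e : (Finsupp.mapDomain (fun R : St => R) : (St →₀ ℂ) → (St →₀ ℂ)) = bwd1 0 := by
      funext f
      exact Finsupp.mapDomain_id
    rw [e] at h
    have e2 : gbwdo 0 = (fun R => R) := rfl
    rw [e2, pow_zero]
    exact h
  | succ L ih =>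
    have h := ih.comp (dob_tile1 (L+1))
    rw [pow_succ]
    exact h

/-- the open branch of the double row -/
def gTo (L : ℕ) (R : St) : St := St.cap 0 (gbwdo L (gfwdo L (St.ins 0 R)))

theorem dob_T1 (L : ℕ) : Dob (T1 L) (gTo L) ((1/2)^L * (1/2)^L) := by
  have h := (dob_map (St.cap 0)).comp ((dob_bwd1 L).comp ((dob_fwd1 L).comp (dob_map (St.ins 0))))
  rw [one_mul, mul_one] at h
  exact h

/-- all the faces are joined -/
def full (L : ℕ) : St where
  rel a b := a = b ∨ (a % 2 = 1 ∧ b % 2 = 1 ∧ a ≤ L ∧ b ≤ L)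
  eqv := by
    refine ⟨fun _ => Or.inl rfl, ?_, ?_⟩
    · rintro a b (h | h)
      · exact Or.inl h.symm
      · exact Or.inr ⟨h.2.1, h.1, h.2.2.2, h.2.2.1⟩
    · rintro a b c (h | h) (k | k)
      · exact Or.inl (h.trans k)
      · subst h; exact Or.inr k
      · subst k; exact Or.inr h
      · exact Or.inr ⟨h.1, k.2.1, h.2.2.1, k.2.2.2⟩
  odd := by
    rintro a b (h | h)
    · exact Or.inl h
    · exact Or.inr ⟨h.1, h.2.1⟩

theorem goodo_mono (i : ℕ) (R : St) {a b : ℕ} (ha : a % 2 = 1) (hb : b % 2 = 1)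
    (h : R.rel a b) : (goodo i R).rel a b := by
  unfold goodo
  split_ifs with hi
  · exact Or.inr ⟨ha, hb, by omega, by omega, Or.inl h⟩
  · exact h

theorem gbwdo_mono (L : ℕ) (R : St) {a b : ℕ} (ha : a % 2 = 1) (hb : b % 2 = 1)
    (h : R.rel a b) : (gbwdo L R).rel a b := by
  induction L generalizing R with
  | zero => exact h
  | succ L ih => exact ih _ (goodo_mono _ _ ha hb h)

theorem gfwdo_rel (L : ℕ) (R : St) (x : ℕ) (hx : x % 2 = 1) (hxL : x ≤ L) :
    (gfwdo L R).rel x (x+2) := by
  induction L with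
  | zero => omega
  | succ L ih =>
    rcases Nat.lt_or_ge L x with h | h
    · have : x = L + 1 := by omega
      subst this
      rw [gfwdo, goodo, if_pos hx]
      exact Or.inr ⟨hx, by omega, by omega, by omega, Or.inr (Or.inl
        ⟨(gfwdo L R).eqv.refl _, (gfwdo L R).eqv.refl _⟩)⟩
    · exact goodo_mono _ _ hx (by omega) (ih h)

theorem gfwdo_chain (L : ℕ) (R : St) (j : ℕ) : ∀ x, x % 2 = 1 → x + 2 * j ≤ L + 2 →
    (gfwdo L R).rel x (x + 2 * j) := by
  induction j with
  | zero => intro x _ _; exact (gfwdo L R).eqv.refl _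
  | succ j ih =>
    intro x hx h
    have h1 := ih x hx (by omega)
    have h2 := gfwdo_rel L R (x + 2 * j) (by omega) (by omega)
    have := (gfwdo L R).eqv.trans h1 h2
    rw [show x + 2 * (j+1) = x + 2 * j + 2 by ring]
    exact this

theorem bd_goodo {K i : ℕ} (hi : i + 2 < K) {R : St} (hR : Bd K R) : Bd K (goodo i R) := by
  unfold goodo
  split_ifs
  · exact bd_act hi hR
  · exact hR

theorem bd_gfwdo {K L : ℕ} (hL : L + 2 < K) {R : St} (hR : Bd K R) : Bd K (gfwdo L R) := by
  induction L with
  | zero => exact hR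
  | succ L ih => exact bd_goodo hL (ih (by omega))

theorem bd_gbwdo {K L : ℕ} (hL : L + 2 < K) {R : St} (hR : Bd K R) : Bd K (gbwdo L R) := by
  induction L generalizing R with
  | zero => exact hR
  | succ L ih => exact ih (by omega) (bd_goodo hL hR)

theorem gTo_full {L : ℕ} {R : St} (hR : Bd (L+1) R) : gTo L R = full L := by
  have hb : Bd (L+1) (gTo L R) :=
    bd_cap (by omega) (bd_gbwdo (by omega) (bd_gfwdo (by omega) (bd_ins hR)))
  apply St.ext
  funext a b
  apply propext
  constructor
  · intro h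
    rcases (gTo L R).odd _ _ h with h1 | h1
    · exact Or.inl h1
    · rcases hb _ _ h with h2 | h2
      · exact Or.inl h2
      · exact Or.inr ⟨h1.1, h1.2, by omega, by omega⟩
  · rintro (h | ⟨h1, h2, h3, h4⟩)
    · subst h; exact (gTo L R).eqv.refl _
    · have key : ∀ a b, a % 2 = 1 → b % 2 = 1 → a ≤ b → b ≤ L → (gTo L R).rel a b := by
        intro a b ha hb hab hbL
        change (St.act 0 _).rel (St.up 0 a) (St.up 0 b)
        have e1 : St.up 0 a = a + 2 := by unfold St.up; rw [if_neg (by omega)]
        have e2 : St.up 0 b = b + 2 := by unfold St.up; rw [if_neg (by omega)]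
        rw [e1, e2]
        refine Or.inr ⟨by omega, by omega, by omega, by omega, Or.inl ?_⟩
        refine gbwdo_mono _ _ (by omega) (by omega) ?_
        have := gfwdo_chain L (St.ins 0 R) ((b - a) / 2) (a + 2) (by omega) (by omega)
        rw [show a + 2 + 2 * ((b - a) / 2) = b + 2 by omega] at this
        exact this
      rcases le_total a b with h | h
      · exact key a b h1 h2 h h4
      · exact (gTo L R).eqv.symm (key b a h2 h1 h h3)

theorem mapDomain_gTo {L : ℕ} {f : St →₀ ℂ} (hf : BdV (L+1) f) :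
    Finsupp.mapDomain (gTo L) f = Finsupp.single (full L) (mass f) := by
  unfold Finsupp.mapDomain mass
  rw [Finsupp.sum, Finsupp.sum, Finsupp.single_finsetSum]
  refine Finset.sum_congr rfl fun R hR => ?_
  rw [gTo_full (hf R hR)]

theorem bdV_tile1 {K i : ℕ} (hi : i + 2 < K) {f : St →₀ ℂ} (hf : BdV K f) :
    BdV K (tile1 i f) := by
  unfold tile1
  split_ifs with h
  · subst h
    exact hf.map fun _ h => bd_act hi h
  · exact hf.tile hi

theorem bdV_fwd1 {K L : ℕ} (hi : L + 2 < K) {f : St →₀ ℂ} (hf : BdV K f) :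
    BdV K (fwd1 L f) := by
  induction L with
  | zero => exact hf
  | succ L ih => exact bdV_tile1 hi (ih (by omega))

theorem bdV_bwd1 {K L : ℕ} (hi : L + 2 < K) {f : St →₀ ℂ} (hf : BdV K f) :
    BdV K (bwd1 L f) := by
  induction L generalizing f with
  | zero => exact hf
  | succ L ih => exact ih (by omega) (bdV_tile1 hi hf)

theorem bdV_T1 {L : ℕ} {f : St →₀ ℂ} (hf : BdV (L+1) f) : BdV (L+1) (T1 L f) :=
  (bdV_bwd1 (by omega) (bdV_fwd1 (by omega) (hf.map fun _ h => bd_ins h))).map
    fun _ h => bd_cap (by omega) h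

theorem contract1 {L : ℕ} {f : St →₀ ℂ} (hf : BdV (L+1) f) (hm : mass f = 0) :
    nrm (T1 L f) ≤ (1 - (1/2)^L * (1/2)^L) * nrm f := by
  have h := (dob_T1 L).dec f
  rw [mapDomain_gTo hf, hm, Finsupp.single_zero, smul_zero, sub_zero] at h
  exact h

theorem iter_bound1 {L : ℕ} {f : St →₀ ℂ} (hf : BdV (L+1) f) (hm : mass f = 0)
    (M : ℕ) : nrm ((T1 L)^[M] f) ≤ (1 - (1/2)^L * (1/2)^L)^M * nrm f ∧
      BdV (L+1) ((T1 L)^[M] f) ∧ mass ((T1 L)^[M] f) = 0 := by
  induction M with
  | zero => simp [hf, hm]
  | succ M ih =>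
    obtain ⟨h1, h2, h3⟩ := ih
    rw [Function.iterate_succ_apply']
    refine ⟨(contract1 h2 h3).trans ?_, bdV_T1 h2, by rw [(dob_T1 L).mass, h3]⟩
    rw [pow_succ, mul_comm ((1 - (1/2)^L * (1/2)^L)^M) (1 - (1/2)^L * (1/2)^L), mul_assoc]
    exact mul_le_mul_of_nonneg_left h1 (by linarith [(dob_T1 L).le])

theorem iter_add1 (L M : ℕ) (f g : St →₀ ℂ) :
    (T1 L)^[M] (f + g) = (T1 L)^[M] f + (T1 L)^[M] g := by
  induction M with
  | zero => rfl
  | succ M ih =>
    rw [Function.iterate_succ_apply', Function.iterate_succ_apply',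
      Function.iterate_succ_apply', ih, (dob_T1 L).add]

theorem law1_tendsto (L : ℕ) (v : St →₀ ℂ) (hT : T1 L v = v)
    (hs : ∀ R ∈ v.support, ∀ a b, R.rel a b → a = b ∨ (a < L + 1 ∧ b < L + 1))
    (hm : mass v ≠ 0) :
    Tendsto (fun M => nrm (law1 L M + (-1 : ℂ) • ((mass v)⁻¹ • v))) atTop (𝓝 0) := by
  set w : St →₀ ℂ := (mass v)⁻¹ • v with hw
  have hwT : T1 L w = w := by rw [hw, (dob_T1 L).smul, hT]
  have hwm : mass w = 1 := by rw [hw, T24.mass_smul, inv_mul_cancel₀ hm]
  have hwB : BdV (L+1) w := BdV.smul (fun R hR => hs R hR) _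
  set u : St →₀ ℂ := Finsupp.single St.bot 1 + (-1 : ℂ) • w with hu
  have huB : BdV (L+1) u := by
    refine BdV.add ?_ (hwB.smul _)
    intro R hR a b h
    have : R = St.bot := by
      have := Finsupp.support_single_subset hR
      simpa using this
    subst this
    exact Or.inl h
  have hum : mass u = 0 := by
    rw [hu, T24.mass_add, T24.mass_smul, T24.mass_single, hwm]; ring
  have hlaw : ∀ M, law1 L M + (-1 : ℂ) • w = (T1 L)^[M] u := by
    intro M
    have e : (Finsupp.single St.bot 1 : St →₀ ℂ) = u + w := by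
      rw [hu]; simp
    have e2 : (T1 L)^[M] w = w := Function.iterate_fixed hwT M
    rw [law1, e, iter_add1, e2]
    simp
  set ρ : ℝ := 1 - (1/2)^L * (1/2)^L with hρ
  have hρ0 : 0 ≤ ρ := by have := (dob_T1 L).le; linarith
  have hρ1 : ρ < 1 := by
    have : (0:ℝ) < (1/2)^L * (1/2)^L := by positivity
    linarith
  have hlim : Tendsto (fun M : ℕ => ρ^M * nrm u) atTop (𝓝 0) := by
    have := (tendsto_pow_atTop_nhds_zero_of_lt_one hρ0 hρ1).mul_const (nrm u)
    simpa using this
  refine squeeze_zero (fun _ => nrm_nonneg _) (fun M => ?_) hlim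
  rw [hlaw M]
  exact (iter_bound1 huB hum M).1

/-! ### the two limit vectors -/

/-- lower strip: both walls wired -/
noncomputable def psiA (k : ℕ) : St →₀ ℂ := Psi (0 :: (List.replicate k 1 ++ [0]))
/-- upper left strip: left wall wired -/
noncomputable def psiB (k : ℕ) : St →₀ ℂ := Psi (0 :: List.replicate k 1)

theorem mass_psiB (k : ℕ) (hk : Odd k) :
    mass (psiB k) = mass (Psi (List.replicate k 1 ++ [0])) := by
  have : Z (0 :: List.replicate k (1:ℂ)) = Z (List.replicate k 1 ++ [0]) :=
    Z_perm (by simpa using hk.add_one) (List.perm_append_singleton _ _).symm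
  exact this

theorem fac_zero_ones (k : ℕ) : fac 0 (List.replicate k (1:ℂ)) = q^k := by
  unfold fac
  rw [List.map_replicate, List.prod_replicate]
  congr 1
  have := T20.q4
  linear_combination this

theorem mass_psiA (k : ℕ) (hk : Even k) :
    mass (psiA k) = q^k * mass (Psi (List.replicate k 1)) := by
  have h1 : Z (0 :: (List.replicate k (1:ℂ) ++ [0])) = Z (List.replicate k 1 ++ [0, 0]) := by
    refine Z_perm (by simp only [List.length_cons, List.length_append, List.length_replicate,
      List.length_nil]; exact hk.add (by decide : Even 2)) ?_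
    have : List.replicate k (1:ℂ) ++ [0, 0] = (List.replicate k 1 ++ [0]) ++ [0] := by simp
    rw [this]
    exact (List.perm_append_singleton _ _).symm
  have h2 : Z (List.replicate k (1:ℂ) ++ [0, 0]) = q^k * Z (List.replicate k 1) := by
    unfold Z
    rw [Pool.Agent.H988C.Psi_zero_zero _ (by simpa using hk), T24.mass_smul,
      T24.mass_mapDomain, fac_zero_ones]
  exact h1.trans h2

theorem mass_psiB_ne (k : ℕ) (hk : Odd k) : mass (psiB k) ≠ 0 := by
  rw [mass_psiB k hk]
  exact Pool.Agent.H981R2.TP.C12.mass_psi1 hk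

theorem mass_psiA_ne (k : ℕ) (hk : Even k) : mass (psiA k) ≠ 0 := by
  rw [mass_psiA k hk]
  exact mul_ne_zero (pow_ne_zero _ q_ne_zero) (Pool.Agent.H981R2.TP.C12.mass_psi0 hk)

/-- convergence, odd widths -/
theorem law1_odd (k : ℕ) (hk : Even k) :
    Tendsto (fun M => nrm (law1 (k+1) M + (-1 : ℂ) • ((mass (psiA k))⁻¹ • psiA k))) atTop
      (𝓝 0) := by
  refine law1_tendsto (k+1) _ (stat_odd k hk) ?_ (mass_psiA_ne k hk)
  intro R hR x y h
  have := Psi_supp (0 :: (List.replicate k 1 ++ [0])) (by
    simp only [List.length_cons, List.length_append, List.length_replicate,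
      List.length_nil]; exact hk.add (by decide : Even 2)) R hR x y h
  simpa using this

/-- convergence, even widths -/
theorem law1_even (k : ℕ) (hk : Odd k) :
    Tendsto (fun M => nrm (law1 (k+1) M + (-1 : ℂ) • ((mass (psiB k))⁻¹ • psiB k))) atTop
      (𝓝 0) := by
  refine law1_tendsto (k+1) _ (stat_even k hk) ?_ (mass_psiB_ne k hk)
  intro R hR x y h
  have := Psi_supp (0 :: List.replicate k 1) (by simpa using hk.add_one) R hR x y h
  simp only [List.length_cons, List.length_replicate] at this
  rcases this with h | h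
  · exact Or.inl h
  · right; omega

end Pool.Agent.H965.Both
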