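import Pool.Graph.R_seed8.H981R2.TP.Main
import Pool.Graph.R_seed8.Y786.TLZ.Z0
import Pool.Agent.H965.Both.Law1

/-!
The glued quantity with a parameter `0`: limit of the exact formula of project TP.
-/

set_option autoImplicit false

namespace Pool.Agent.H965.Both

open Pool.Agent.H988R2.Perc hiding X
open Pool.Agent.H492C
open Pool.Agent.H981R2.TP (GR2 RH s_F psi1 psi0 tipFormula)
open Finset Polynomial

/-- the glued quantity as a polynomial of the first parameter -/
theorem glue_poly (a b : ℕ) (ha : Odd a) (hb : Odd b) : ∃ P : ℂ[X], ∀ t : ℂ,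
    pairG (a+1+1) (a+1+2+b) (Psi (t :: (List.replicate (a+b+2) 1 ++ [0])))
      (comb2 ((a+1)/2+1) (Psi (t :: List.replicate a 1)) (up1 (List.replicate b 1))) =
      P.eval t := by
  obtain ⟨S, h1, h2, h3⟩ := g4_supp (a + b + 4) (a + 1) (b + 1)
  obtain ⟨P, hP, hP'⟩ := g4_poly (a + 1 + 1) (a + 1 + 2 + b) ((a + 1) / 2 + 1)
    (f := fun t => Psi (t :: (List.replicate (a+b+2) 1 ++ [0])))
    (g := fun t => Psi (t :: List.replicate a 1)) (h := fun _ => up1 (List.replicate b 1)) (S := S)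
    (d1 := a + b + 2) (d2 := a - 1) (d3 := 0)
    (fun t => h1 _ (by simp)) (fun _ => h2 _ (by simp)) (fun _ => h3 _ (by simp))
    (fun R => by
      obtain ⟨P, hP, hP'⟩ := g4_pd [] (List.replicate (a+b+2) 1 ++ [0]) (by
        simp only [List.length_append, List.length_nil, List.length_cons, List.length_replicate]
        obtain ⟨a, ha⟩ := ha
        obtain ⟨b, hb⟩ := hb
        exact ⟨a + b + 3, by omega⟩) R
      refine ⟨P, ?_, hP'⟩
      simp only [List.length_append, List.length_nil, List.length_cons,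
        List.length_replicate] at hP
      omega)
    (fun R => by
      obtain ⟨P, hP, hP'⟩ := g4_pd [] (List.replicate a 1) (by
        simp only [List.length_nil, List.length_replicate]
        obtain ⟨a, ha⟩ := ha
        exact ⟨a + 1, by omega⟩) R
      refine ⟨P, ?_, hP'⟩
      simp only [List.length_nil, List.length_replicate] at hP
      omega)
    (fun R => g4_const _ R)
  exact ⟨P, hP'⟩

theorem glue_ne (a b : ℕ) (ha : Odd a) (hb : Odd b) (t : ℂ) (ht : t ≠ 0) :
    pairG (a+1+1) (a+1+2+b) (Psi (t :: (List.replicate (a+b+2) 1 ++ [0])))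
      (comb2 ((a+1)/2+1) (Psi (t :: List.replicate a 1)) (up1 (List.replicate b 1))) =
      3 * q^(b+1) * Z (t :: (List.replicate (a+1) 1 ++ [0])) * Z (List.replicate (b+1) 1) *
        Z (t :: List.replicate (a+b+1) 1) := by
  have h := s_F (t :: List.replicate a 1) (List.replicate b 1) (by simpa using ha.add_one)
    (by simpa using hb) (by
      intro z hz
      rw [List.cons_append, List.mem_cons, List.mem_append, List.mem_replicate,
        List.mem_replicate] at hz
      rcases hz with rfl | ⟨_, rfl⟩ | ⟨_, rfl⟩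
      · exact ht
      · exact one_ne_zero
      · exact one_ne_zero)
  unfold GR2 RH at h
  simp only [List.length_cons, List.length_replicate, List.map_cons, List.map_replicate, inv_one,
    List.prod_cons, List.prod_replicate, one_pow, one_zpow, mul_one, List.cons_append] at h
  have e1 : List.replicate a (1:ℂ) ++ 1 :: 1 :: (List.replicate b 1 ++ [0]) =
      List.replicate (a+b+2) 1 ++ [0] := by
    have h1 : (1 : ℂ) :: 1 :: (List.replicate b 1 ++ [0]) = List.replicate (b + 2) 1 ++ [0] := by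
      rw [List.replicate_succ, List.replicate_succ]
      rfl
    rw [h1, ← List.append_assoc, List.replicate_append_replicate, add_assoc]
  have e2 : List.replicate a (1:ℂ) ++ [1, 0] = List.replicate (a+1) 1 ++ [0] := by
    rw [List.replicate_succ']; simp
  have e3 : List.replicate b (1:ℂ) ++ [1] = List.replicate (b+1) 1 :=
    List.replicate_succ'.symm
  have e4 : List.replicate a (1:ℂ) ++ 1 :: List.replicate b 1 = List.replicate (a+b+1) 1 := by
    rw [← List.replicate_succ, List.replicate_append_replicate, add_assoc]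
  rw [e1, e2, e3, e4] at h
  have e5 := Psi_inv1 t⁻¹ (List.replicate a 1) (inv_ne_zero ht) (by simpa using ha)
  rw [List.length_replicate, inv_inv] at e5
  rw [e5, g4_smul_left, g4_pair_smul] at h
  have hz : (t⁻¹)^(a-1) * t^(a-1) = 1 := by
    rw [← mul_pow, inv_mul_cancel₀ ht, one_pow]
  have hz2 : t ^ (2 - ((a + 1 : ℕ) : ℤ)) = (t⁻¹)^(a-1) := by
    rw [← zpow_natCast, inv_zpow', ]
    congr 1
    obtain ⟨m, hm⟩ := ha
    omega
  rw [hz2] at h
  have h5 := congrArg (fun z => t^(a-1) * z) h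
  have h6 : t^(a-1) * (t⁻¹)^(a-1) = 1 := by rw [mul_comm]; exact hz
  calc _ = (t^(a-1) * (t⁻¹)^(a-1)) * pairG (a+1+1) (a+1+2+b)
        (Psi (t :: (List.replicate (a+b+2) 1 ++ [0])))
        (comb2 ((a+1)/2+1) (Psi (t :: List.replicate a 1)) (up1 (List.replicate b 1))) := by
        rw [h6, one_mul]
    _ = _ := by
        rw [mul_assoc, h5]
        calc _ = (t^(a-1) * (t⁻¹)^(a-1)) * (3 * q^(b+1) *
              Z (t :: (List.replicate (a+1) 1 ++ [0])) * Z (List.replicate (b+1) 1) *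
              Z (t :: List.replicate (a+b+1) 1)) := by ring
          _ = _ := by rw [h6, one_mul]

/-- the glued quantity at `0` -/
theorem glue_zero (a b : ℕ) (ha : Odd a) (hb : Odd b) :
    pairG (a+1+1) (a+1+2+b) (psiA (a+b+2)) (comb2 ((a+1)/2+1) (psiB a)
      (up1 (List.replicate b 1))) =
      3 * q^(b+1) * Z (0 :: (List.replicate (a+1) 1 ++ [0])) * Z (List.replicate (b+1) 1) *
        Z (0 :: List.replicate (a+b+1) 1) := by
  obtain ⟨P, hP⟩ := glue_poly a b ha hb
  obtain ⟨Q1, _, hQ1⟩ := (Z_pd (a + 3) (by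
    obtain ⟨m, hm⟩ := ha; exact ⟨m + 2, by omega⟩)).univ [] (List.replicate (a+1) 1 ++ [0])
      (by simp)
  obtain ⟨Q2, _, hQ2⟩ := (Z_pd (a + b + 2) (by
    obtain ⟨m, hm⟩ := ha; obtain ⟨n, hn⟩ := hb; exact ⟨m + n + 2, by omega⟩)).univ []
      (List.replicate (a+b+1) 1) (by simp)
  simp only [List.nil_append] at hQ1 hQ2
  have key : P * Polynomial.X = (C (3 * q^(b+1) * Z (List.replicate (b+1) 1)) * (Q1 * Q2)) *
      Polynomial.X := by
    apply Polynomial.funext
    intro t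
    rw [eval_mul, eval_mul, eval_X]
    by_cases ht : t = 0
    · rw [ht, mul_zero, mul_zero]
    · rw [← hP t, glue_ne a b ha hb t ht, eval_mul, eval_C, eval_mul, ← hQ1 t, ← hQ2 t]
      ring
  have key2 := mul_right_cancel₀ Polynomial.X_ne_zero key
  have h := hP 0
  unfold psiA psiB
  rw [h, key2, eval_mul, eval_C, eval_mul, ← hQ1 0, ← hQ2 0]
  ring

/-- the value in terms of the masses -/
theorem glue_value (a b : ℕ) (ha : Odd a) (hb : Odd b) :
    pairG (a+1+1) (a+1+2+b) (psiA (a+b+2)) (comb2 ((a+1)/2+1) (psiB a)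
      (up1 (List.replicate b 1))) =
    (tipFormula a b : ℂ) * (mass (psiA (a+b+2)) * mass (psiB a) * mass (psi1 b)) := by
  rw [glue_zero a b ha hb]
  obtain ⟨m, rfl⟩ := ha
  obtain ⟨n, rfl⟩ := hb
  have hA1 : Z (0 :: (List.replicate (2*m+1+1) (1:ℂ) ++ [0])) =
      q^(2*m+2) * (q^((m+1)*m) * (chi (2*m+2) : ℂ)) := by
    have h1 := mass_psiA (2*m+2) ⟨m+1, by ring⟩
    have h2 : mass (Psi (List.replicate (2*m+2) (1:ℂ))) = q^((m+1)*(m+1-1)) *
        (chi (2*(m+1)) : ℂ) := by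
      have := Z_ones (m+1)
      rw [show 2*(m+1) = 2*m+2 by ring] at this ⊢
      exact this
    rw [h2, Nat.add_sub_cancel, show 2*(m+1) = 2*m+2 by ring] at h1
    exact h1
  have hB1 : Z (List.replicate (2*n+1+1) (1:ℂ)) = q^((n+1)*n) * (chi (2*n+2) : ℂ) := by
    have := Z_ones (n+1)
    rw [Nat.add_sub_cancel, show 2*(n+1) = 2*n+1+1 by ring] at this
    exact this
  have hC1 : Z (0 :: List.replicate (2*m+1+(2*n+1)+1) (1:ℂ)) =
      q^((m+n+1+1)*(m+n+1)) * (chi (2*(m+n+1)+1) : ℂ) := by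
    have h1 := mass_psiB (2*m+1+(2*n+1)+1) ⟨m+n+1, by ring⟩
    have h2 := Z_ones_zero (m+n+1)
    rw [show 2*(m+n+1)+1 = 2*m+1+(2*n+1)+1 by ring] at h2 ⊢
    exact h1.trans h2
  have m1 : mass (psiA (2*m+1+(2*n+1)+2)) = q^(2*(m+n+2)) * (q^((m+n+2)*(m+n+1)) *
      (chi (2*(m+n+2)) : ℂ)) := by
    have h1 := mass_psiA (2*m+1+(2*n+1)+2) ⟨m+n+2, by ring⟩
    have h2 := Z_ones (m+n+2)
    rw [show m+n+2-1 = m+n+1 by omega] at h2
    rw [show 2*m+1+(2*n+1)+2 = 2*(m+n+2) by ring] at h1 ⊢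
    rw [h1]
    congr 1
  have m2 : mass (psiB (2*m+1)) = q^((m+1)*m) * (chi (2*m+1) : ℂ) :=
    (mass_psiB (2*m+1) ⟨m, rfl⟩).trans (Z_ones_zero m)
  have m3 : mass (psi1 (2*n+1)) = q^((n+1)*n) * (chi (2*n+1) : ℂ) := Z_ones_zero n
  rw [hA1, hB1, hC1, m1, m2, m3]
  unfold tipFormula
  have c1 : 2*m + 1 + (2*n+1) + 1 = 2*(m+n+1)+1 := by ring
  have c2 : 2*m + 1 + (2*n+1) + 2 = 2*(m+n+2) := by ring
  have c3 : 2*n+1+1 = 2*n+2 := by ring
  have c4 : 2*m+1+1 = 2*m+2 := by ring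
  rw [c1, c2, c3, c4]
  have h1 : (chi (2*m+1) : ℂ) ≠ 0 := by exact_mod_cast (chi_pos (2*m+1)).ne'
  have h2 : (chi (2*n+1) : ℂ) ≠ 0 := by exact_mod_cast (chi_pos (2*n+1)).ne'
  have h3 : (chi (2*(m+n+2)) : ℂ) ≠ 0 := by exact_mod_cast (chi_pos (2*(m+n+2))).ne'
  push_cast
  have hq : (q^(2*n+2) * q^(2*m+2) * q^((m+1)*m) * q^((n+1)*n) * q^((m+n+1+1)*(m+n+1)) : ℂ) =
      q^(2*(m+n+2)) * q^((m+n+2)*(m+n+1)) * q^((m+1)*m) * q^((n+1)*n) := by
    rw [← pow_add, ← pow_add, ← pow_add, ← pow_add, ← pow_add, ← pow_add, ← pow_add]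
    congr 1
    ring
  generalize q^(2*n+2) = Q1 at *
  generalize q^(2*m+2) = Q2 at *
  generalize q^((m+1)*m) = Q3 at *
  generalize q^((n+1)*n) = Q4 at *
  generalize q^((m+n+1+1)*(m+n+1)) = Q5 at *
  generalize q^(2*(m+n+2)) = Q6 at *
  generalize q^((m+n+2)*(m+n+1)) = Q7 at *
  field_simp
  linear_combination ((chi (2*m+2) : ℂ) * (chi (2*n+2) : ℂ) * (chi (2*(m+n+1)+1) : ℂ)) * hq

end Pool.Agent.H965.Both
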