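import Pool.Agent.H965.Both.Geo
import Pool.Graph.R_seed8.Y996.TL.Form

/-!
The closed formula with rising factorials, and the asymptotics.
-/

set_option autoImplicit false

namespace Pool.Agent.H965.Both

open Pool.Agent.H988R2.Perc hiding X
open Pool.Agent.H981R2.TP
open Pool.Agent.Y996.TL (ris ris_pos odd_ratio)
open Finset Filter Topology MeasureTheory

/-- the constant -/
noncomputable def kap : ℝ := Real.sqrt Real.pi / Real.Gamma (1/3)

theorem kap_pos : 0 < kap := by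
  have h3 : 0 < Real.Gamma (1/3) := Real.Gamma_pos_of_pos (by norm_num)
  unfold kap
  positivity

theorem tipFormula_split (m k : ℕ) : tipFormula (2*m+1) (2*k+1) =
    3 * (chi (2*m+2) / chi (2*m+1)) * (chi (2*k+2) / chi (2*k+1)) *
      (chi (2*(m+k+1)+2) / chi (2*(m+k+1)+1))⁻¹ := by
  unfold tipFormula
  rw [show 2 * m + 1 + (2 * k + 1) + 1 = 2 * (m + k + 1) + 1 by ring,
    show 2 * m + 1 + (2 * k + 1) + 2 = 2 * (m + k + 1) + 2 by ring,
    show 2 * k + 1 + 1 = 2 * k + 2 by ring, show 2 * m + 1 + 1 = 2 * m + 2 by ring, inv_div]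
  simp only [div_eq_mul_inv, mul_inv]
  ring

/-- the closed formula with rising factorials -/
theorem tipFormula_ris (a b : ℕ) (ha : Odd a) (hb : Odd b) : tipFormula a b =
    ris (1/3) (a+1) * ris (1/3) (b+1) * ris (1/2) (a+b+2) /
      (ris (1/2) (a+1) * ris (1/2) (b+1) * ris (1/3) (a+b+2)) := by
  obtain ⟨m, rfl⟩ := ha
  obtain ⟨k, rfl⟩ := hb
  rw [tipFormula_split, odd_ratio, odd_ratio, odd_ratio,
    show 2 * m + 1 + (2 * k + 1) + 2 = 2 * (m + k + 1) + 2 by ring,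
    show 2 * m + 1 + 1 = 2 * m + 2 by ring, show 2 * k + 1 + 1 = 2 * k + 2 by ring]
  have := (ris_pos (s := 1 / 2) (by norm_num) (2 * m + 2)).ne'
  have := (ris_pos (s := 1 / 2) (by norm_num) (2 * k + 2)).ne'
  have := (ris_pos (s := 1 / 2) (by norm_num) (2 * (m + k + 1) + 2)).ne'
  have := (ris_pos (s := 1 / 3) (by norm_num) (2 * (m + k + 1) + 2)).ne'
  rw [pow_add, pow_add, inv_div]
  field_simp
  ring

theorem tipFormula_pos (a b : ℕ) : 0 < tipFormula a b := by
  unfold tipFormula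
  have h := fun n => chi_pos n
  have h1 := h (a+1)
  have h2 := h (b+1)
  have h3 := h (a+b+1)
  have h4 := h a
  have h5 := h b
  have h6 := h (a+b+2)
  positivity

theorem union_formula (m k : ℕ) (hm : 0 < m) (hk : 0 < k) :
    tipFormula (2*m+1) (2*k+1) *
      (((2*m+1 : ℕ) : ℝ) * ((2*k+1 : ℕ) : ℝ) / (((2*m+1 : ℕ) : ℝ) + ((2*k+1 : ℕ) : ℝ)))^((1:ℝ)/6) =
    3 * (chi (2*m+2) / chi (2*m+1) / ((81/16 : ℝ)^m / (m:ℝ)^((1:ℝ)/6))) *
      (chi (2*k+2) / chi (2*k+1) / ((81/16 : ℝ)^k / (k:ℝ)^((1:ℝ)/6))) *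
      (chi (2*(m+k+1)+2) / chi (2*(m+k+1)+1) /
        ((81/16 : ℝ)^(m+k+1) / ((m+k+1 : ℕ):ℝ)^((1:ℝ)/6)))⁻¹ * (16/81) *
      ((2 + 1 / (m:ℝ)) * (2 + 1 / (k:ℝ)) / 2) ^ ((1:ℝ)/6) := by
  have hm' : (0:ℝ) < m := by exact_mod_cast hm
  have hk' : (0:ℝ) < k := by exact_mod_cast hk
  have hs : (0:ℝ) < ((m+k+1 : ℕ):ℝ) := by positivity
  have e1 : (((2*m+1 : ℕ) : ℝ) * ((2*k+1 : ℕ) : ℝ) /
      (((2*m+1 : ℕ) : ℝ) + ((2*k+1 : ℕ) : ℝ))) =
      ((m:ℝ) * k / ((m+k+1 : ℕ):ℝ)) * ((2 + 1 / (m:ℝ)) * (2 + 1 / (k:ℝ)) / 2) := by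
    push_cast
    have : (m:ℝ) + k + 1 ≠ 0 := by positivity
    have h2 : (2:ℝ) * m + 1 + (2 * k + 1) ≠ 0 := by positivity
    field_simp
    ring
  have hnn : (0:ℝ) ≤ ((2 + 1 / (m:ℝ)) * (2 + 1 / (k:ℝ)) / 2) := by positivity
  rw [e1, Real.mul_rpow (by positivity) hnn, Real.div_rpow (by positivity) hs.le,
    Real.mul_rpow hm'.le hk'.le]
  have p1 : (0:ℝ) < (m:ℝ)^((1:ℝ)/6) := Real.rpow_pos_of_pos hm' _
  have p2 : (0:ℝ) < (k:ℝ)^((1:ℝ)/6) := Real.rpow_pos_of_pos hk' _
  have p3 : (0:ℝ) < ((m+k+1 : ℕ):ℝ)^((1:ℝ)/6) := Real.rpow_pos_of_pos hs _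
  rw [tipFormula_split]
  generalize chi (2*m+2) / chi (2*m+1) = x
  generalize chi (2*k+2) / chi (2*k+1) = y
  generalize chi (2*(m+k+1)+2) / chi (2*(m+k+1)+1) = z
  generalize ((2 + 1 / (m:ℝ)) * (2 + 1 / (k:ℝ)) / 2) ^ ((1:ℝ)/6) = w
  generalize (m:ℝ)^((1:ℝ)/6) = a at *
  generalize (k:ℝ)^((1:ℝ)/6) = b at *
  generalize ((m+k+1 : ℕ):ℝ)^((1:ℝ)/6) = c at *
  have hp : ((81/16 : ℝ)^(m+k+1)) = (81/16)^m * (81/16)^k * (81/16) := by
    rw [pow_succ, pow_add]
  rw [hp]
  have q1 : ((81/16 : ℝ))^m ≠ 0 := by positivity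
  have q2 : ((81/16 : ℝ))^k ≠ 0 := by positivity
  generalize ((81/16 : ℝ))^m = P at *
  generalize ((81/16 : ℝ))^k = Q at *
  rw [inv_div, div_eq_mul_inv _ z]
  field_simp

/-- asymptotics of the closed formula, both widths odd -/
theorem union_asymp (a b : ℕ → ℕ) (ha : ∀ n, Odd (a n)) (hb : ∀ n, Odd (b n))
    (ta : Tendsto a atTop atTop) (tb : Tendsto b atTop atTop) :
    Tendsto (fun n => tipFormula (a n) (b n) *
      ((a n : ℝ) * b n / (a n + b n))^((1:ℝ)/6)) atTop (𝓝 kap) := by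
  have tm : Tendsto (fun n => a n / 2) atTop atTop :=
    Filter.tendsto_atTop.2 fun K => by
      filter_upwards [ta.eventually_ge_atTop (2 * K)] with n hn
      omega
  have tk : Tendsto (fun n => b n / 2) atTop atTop :=
    Filter.tendsto_atTop.2 fun K => by
      filter_upwards [tb.eventually_ge_atTop (2 * K)] with n hn
      omega
  have ts : Tendsto (fun n => a n / 2 + b n / 2 + 1) atTop atTop :=
    tendsto_atTop_mono (fun n => by omega) tm
  have l1 := D2_explicit.comp tm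
  have l2 := D2_explicit.comp tk
  have l3 := (D2_explicit.comp ts).inv₀ cO_pos.ne'
  have l4 : Tendsto (fun n => 1 / ((a n / 2 : ℕ) : ℝ)) atTop (𝓝 0) :=
    (tendsto_one_div_atTop_nhds_zero_nat (𝕜 := ℝ)).comp tm
  have l5 : Tendsto (fun n => 1 / ((b n / 2 : ℕ) : ℝ)) atTop (𝓝 0) :=
    (tendsto_one_div_atTop_nhds_zero_nat (𝕜 := ℝ)).comp tk
  have l6 : Tendsto (fun n => ((2 + 1 / ((a n / 2 : ℕ):ℝ)) *
      (2 + 1 / ((b n / 2 : ℕ):ℝ)) / 2) ^ ((1:ℝ)/6)) atTop (𝓝 ((2:ℝ) ^ ((1:ℝ)/6))) := by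
    have h := (((tendsto_const_nhds (x := (2:ℝ))).add l4).mul
      ((tendsto_const_nhds (x := (2:ℝ))).add l5)).div_const 2
    have h' : (2 + 0) * (2 + 0) / 2 = (2:ℝ) := by norm_num
    rw [h'] at h
    exact h.rpow_const (Or.inl two_ne_zero)
  have l7 := (((((tendsto_const_nhds (x := (3:ℝ))).mul l1).mul l2).mul l3).mul
    (tendsto_const_nhds (x := (16/81:ℝ)))).mul l6
  have e : 3 * cO * cO * cO⁻¹ * (16/81) * (2:ℝ)^((1:ℝ)/6) = kap := by
    have h1 : 3 * cO * cO * cO⁻¹ = 3 * cO := by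
      rw [mul_assoc, mul_inv_cancel₀ cO_pos.ne', mul_one]
    rw [h1]
    unfold cO kap
    rw [Real.Gamma_one_half_eq]
    have h2 : (2:ℝ)^((1:ℝ)/6) ≠ 0 := (Real.rpow_pos_of_pos (by norm_num) _).ne'
    have h3 : Real.Gamma (1/3) ≠ 0 := (Real.Gamma_pos_of_pos (by norm_num)).ne'
    field_simp
    norm_num
  rw [e] at l7
  refine l7.congr' ?_
  filter_upwards [tm.eventually_gt_atTop 0, tk.eventually_gt_atTop 0] with n hn1 hn2
  have hA : 2 * (a n / 2) + 1 = a n := Nat.two_mul_div_two_add_one_of_odd (ha n)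
  have hB : 2 * (b n / 2) + 1 = b n := Nat.two_mul_div_two_add_one_of_odd (hb n)
  have h := union_formula (a n / 2) (b n / 2) hn1 hn2
  rw [hA, hB] at h
  rw [h]
  simp only [Function.comp_apply]
  rw [hA, hB]

/-- replacing the normalisation by an equivalent one -/
theorem change_norm {F X Y : ℕ → ℝ} {c : ℝ}
    (h : Tendsto (fun n => F n * (X n)^((1:ℝ)/6)) atTop (𝓝 c))
    (hX : ∀ᶠ n in atTop, 0 < X n) (hY : ∀ᶠ n in atTop, 0 < Y n)
    (hXY : Tendsto (fun n => Y n / X n) atTop (𝓝 1)) :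
    Tendsto (fun n => F n * (Y n)^((1:ℝ)/6)) atTop (𝓝 c) := by
  have h1 := hXY.rpow_const (p := (1:ℝ)/6) (Or.inl one_ne_zero)
  rw [Real.one_rpow] at h1
  have h2 := h.mul h1
  rw [mul_one] at h2
  refine h2.congr' ?_
  filter_upwards [hX, hY] with n hx hy
  rw [Real.div_rpow hy.le hx.le]
  have : (X n)^((1:ℝ)/6) ≠ 0 := (Real.rpow_pos_of_pos hx _).ne'
  field_simp

section
variable (a b : ℕ → ℕ) (ha : ∀ n, Odd (a n)) (hb : ∀ n, Odd (b n))
  (ta : Tendsto a atTop atTop) (tb : Tendsto b atTop atTop)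
include ha hb ta tb

/-- asymptotics of the probability that the tip is joined to the right side -/
theorem toR_asymp : Tendsto (fun n => perc.real (ToR (a n) (b n)) *
    ((b n : ℝ) * (a n + b n) / a n)^((1:ℝ)/6)) atTop (𝓝 kap) := by
  have taR : Tendsto (fun n => (a n : ℝ)) atTop atTop := tendsto_natCast_atTop_atTop.comp ta
  have tbR : Tendsto (fun n => (b n : ℝ)) atTop atTop := tendsto_natCast_atTop_atTop.comp tb
  have tsR : Tendsto (fun n => (a n : ℝ) + b n) atTop atTop := taR.atTop_add_atTop tbR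
  have ea : ∀ᶠ n in atTop, (2:ℝ) ≤ a n := taR.eventually_ge_atTop 2
  have eb : ∀ᶠ n in atTop, (2:ℝ) ≤ b n := tbR.eventually_ge_atTop 2
  have ia : Tendsto (fun n => (a n : ℝ)⁻¹) atTop (𝓝 0) := tendsto_inv_atTop_zero.comp taR
  have is : Tendsto (fun n => ((a n : ℝ) + b n)⁻¹) atTop (𝓝 0) := tendsto_inv_atTop_zero.comp tsR
  have hbpos : ∀ n, 0 < b n := fun n => (hb n).pos
  have hapos : ∀ n, 0 < a n := fun n => (ha n).pos
  -- lower bound
  have tl : Tendsto (fun n => a n - 1) atTop atTop :=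
    Filter.tendsto_atTop.2 fun K => by
      filter_upwards [ta.eventually_ge_atTop (K + 1)] with n hn
      omega
  have low0 := D3_explicit (fun n => a n - 1) b
    (fun n => by obtain ⟨m, hm⟩ := ha n; exact ⟨m, by omega⟩) hb tl tb
  have low : Tendsto (fun n => tipFormula (a n - 1) (b n) *
      ((b n : ℝ) * (a n + b n) / a n)^((1:ℝ)/6)) atTop (𝓝 kap) := by
    refine change_norm low0 ?_ ?_ ?_
    · filter_upwards [ea] with n hn
      have h1 : ((a n - 1 : ℕ) : ℝ) = (a n : ℝ) - 1 := by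
        rw [Nat.cast_sub (hapos n), Nat.cast_one]
      have h2 : (0:ℝ) < b n := by exact_mod_cast hbpos n
      rw [h1]
      have : 0 < (a n : ℝ) - 1 := by linarith
      positivity
    · filter_upwards [ea] with n hn
      have h2 : (0:ℝ) < b n := by exact_mod_cast hbpos n
      have : 0 < (a n : ℝ) := by linarith
      positivity
    · have h := ((tendsto_const_nhds (x := (1:ℝ))).sub ia).div
        ((tendsto_const_nhds (x := (1:ℝ))).sub is) (by norm_num)
      rw [sub_zero, div_one] at h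
      refine h.congr' ?_
      filter_upwards [ea] with n hn
      have h1 : ((a n - 1 : ℕ) : ℝ) = (a n : ℝ) - 1 := by
        rw [Nat.cast_sub (hapos n), Nat.cast_one]
      have h2 : (0:ℝ) < b n := by exact_mod_cast hbpos n
      rw [h1]
      have h3 : (a n : ℝ) - 1 ≠ 0 := by intro h; linarith
      have h4 : (a n : ℝ) ≠ 0 := by intro h; linarith
      have h5 : (a n : ℝ) + b n ≠ 0 := by intro h; linarith
      have h6 : (a n : ℝ) - 1 + b n ≠ 0 := by intro h; linarith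
      have h7 : 1 - ((a n : ℝ) + b n)⁻¹ ≠ 0 := by
        rw [show 1 - ((a n : ℝ) + b n)⁻¹ = ((a n : ℝ) - 1 + b n) / ((a n : ℝ) + b n) by
          field_simp; ring]
        exact div_ne_zero h6 h5
      rw [Pi.div_apply, show (1:ℝ) - ((a n : ℝ) + b n)⁻¹ =
        ((a n : ℝ) - 1 + b n) / ((a n : ℝ) + b n) by field_simp; ring]
      field_simp
  -- upper bound
  have tu : Tendsto (fun n => a n + 1) atTop atTop :=
    tendsto_atTop_mono (fun n => by omega) ta
  have up0 := D3_explicit (fun n => a n + 1) b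
    (fun n => (ha n).add_one) hb tu tb
  have up : Tendsto (fun n => tipFormula (a n + 1) (b n) *
      ((b n : ℝ) * (a n + b n) / a n)^((1:ℝ)/6)) atTop (𝓝 kap) := by
    refine change_norm up0 ?_ ?_ ?_
    · filter_upwards [ea] with n hn
      have h2 : (0:ℝ) < b n := by exact_mod_cast hbpos n
      push_cast
      positivity
    · filter_upwards [ea] with n hn
      have h2 : (0:ℝ) < b n := by exact_mod_cast hbpos n
      have : 0 < (a n : ℝ) := by linarith
      positivity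
    · have h := ((tendsto_const_nhds (x := (1:ℝ))).add ia).div
        ((tendsto_const_nhds (x := (1:ℝ))).add is) (by norm_num)
      rw [add_zero, div_one] at h
      refine h.congr' ?_
      filter_upwards [ea] with n hn
      have h2 : (0:ℝ) < b n := by exact_mod_cast hbpos n
      push_cast
      have h3 : (a n : ℝ) + 1 ≠ 0 := by intro h; linarith
      have h4 : (a n : ℝ) ≠ 0 := by intro h; linarith
      have h5 : (a n : ℝ) + b n ≠ 0 := by intro h; linarith
      have h6 : (a n : ℝ) + 1 + b n ≠ 0 := by intro h; linarith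
      rw [Pi.div_apply, show (1:ℝ) + ((a n : ℝ) + b n)⁻¹ =
        ((a n : ℝ) + 1 + b n) / ((a n : ℝ) + b n) by field_simp; ring]
      field_simp
  refine tendsto_of_tendsto_of_tendsto_of_le_of_le low up ?_ ?_
  · intro n
    have h := le_toR (a n) (b n) (ha n) (hb n)
    exact mul_le_mul_of_nonneg_right h (by positivity)
  · intro n
    have h := toR_le (a n) (b n) (ha n) (hb n)
    exact mul_le_mul_of_nonneg_right h (by positivity)

theorem ratioR (x : ℝ) (hx : Tendsto (fun n => (a n : ℝ) / (a n + b n)) atTop (𝓝 x)) :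
    Tendsto (fun n => perc.real (ToR (a n) (b n)) / tipFormula (a n) (b n)) atTop
      (𝓝 (x^((1:ℝ)/3))) := by
  have h1 := toR_asymp a b ha hb ta tb
  have h2 := union_asymp a b ha hb ta tb
  have h3 := h1.div h2 kap_pos.ne'
  rw [div_self kap_pos.ne'] at h3
  have h4 := h3.mul (hx.rpow_const (p := (1:ℝ)/3) (Or.inr (by norm_num)))
  rw [one_mul] at h4
  refine h4.congr fun n => ?_
  have hA : (0:ℝ) < a n := by exact_mod_cast (ha n).pos
  have hB : (0:ℝ) < b n := by exact_mod_cast (hb n).pos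
  have hS : (0:ℝ) < (a n : ℝ) + b n := by positivity
  have hU := tipFormula_pos (a n) (b n)
  simp only [Pi.div_apply]
  have e1 : ((b n : ℝ) * (a n + b n) / a n) * ((a n : ℝ) / (a n + b n))^2 =
      (a n : ℝ) * b n / (a n + b n) := by
    field_simp
  have e2 : ((b n : ℝ) * (a n + b n) / a n)^((1:ℝ)/6) * ((a n : ℝ) / (a n + b n))^((1:ℝ)/3) =
      ((a n : ℝ) * b n / (a n + b n))^((1:ℝ)/6) := by
    rw [← e1, Real.mul_rpow (by positivity) (by positivity), ← Real.rpow_natCast,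
      ← Real.rpow_mul (by positivity)]
    norm_num
  have p1 : 0 < ((a n : ℝ) * b n / (a n + b n))^((1:ℝ)/6) := by positivity
  calc _ = perc.real (ToR (a n) (b n)) * (((b n : ℝ) * (a n + b n) / a n)^((1:ℝ)/6) *
        ((a n : ℝ) / (a n + b n))^((1:ℝ)/3)) /
        (tipFormula (a n) (b n) * ((a n : ℝ) * b n / (a n + b n))^((1:ℝ)/6)) := by ring
    _ = _ := by
      rw [e2]
      field_simp

end

/-- the conditional probabilities -/
theorem ratios (a b : ℕ → ℕ) (ha : ∀ n, Odd (a n)) (hb : ∀ n, Odd (b n))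
    (ta : Tendsto a atTop atTop) (tb : Tendsto b atTop atTop) (x : ℝ)
    (hx : Tendsto (fun n => (a n : ℝ) / (a n + b n)) atTop (𝓝 x)) :
    Tendsto (fun n => perc.real (ToR (a n) (b n)) /
      perc.real (ToL (a n) (b n) ∪ ToR (a n) (b n))) atTop (𝓝 (x^((1:ℝ)/3))) ∧
    Tendsto (fun n => perc.real (ToL (a n) (b n)) /
      perc.real (ToL (a n) (b n) ∪ ToR (a n) (b n))) atTop (𝓝 ((1-x)^((1:ℝ)/3))) ∧
    Tendsto (fun n => perc.real (ToL (a n) (b n) ∩ ToR (a n) (b n)) /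
      perc.real (ToL (a n) (b n) ∪ ToR (a n) (b n))) atTop
      (𝓝 (x^((1:ℝ)/3) + (1-x)^((1:ℝ)/3) - 1)) := by
  have hy : Tendsto (fun n => (b n : ℝ) / (b n + a n)) atTop (𝓝 (1-x)) := by
    refine ((tendsto_const_nhds (x := (1:ℝ))).sub hx).congr fun n => ?_
    have hA : (0:ℝ) < a n := by exact_mod_cast (ha n).pos
    have hB : (0:ℝ) < b n := by exact_mod_cast (hb n).pos
    field_simp
    ring
  have hR := ratioR a b ha hb ta tb x hx
  have hL := ratioR b a hb ha tb ta (1-x) hy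
  have esym : ∀ n, tipFormula (b n) (a n) = tipFormula (a n) (b n) := by
    intro n
    unfold tipFormula
    rw [add_comm (b n) (a n)]
    ring
  simp only [esym] at hL
  refine ⟨?_, ?_, ?_⟩
  · refine hR.congr fun n => ?_
    rw [real_union _ _ (ha n) (hb n)]
  · refine hL.congr fun n => ?_
    rw [real_union _ _ (ha n) (hb n), toL_eq _ _ (ha n) (hb n)]
  · refine ((hR.add hL).sub (tendsto_const_nhds (x := (1:ℝ)))).congr fun n => ?_
    rw [real_union _ _ (ha n) (hb n), real_inter _ _ (ha n) (hb n)]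
    have hU := (tipFormula_pos (a n) (b n)).ne'
    field_simp
    ring

end Pool.Agent.H965.Both
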