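import Pool.Agent.H965.Both.Prob

/-!
The slit strip with both widths odd, in symmetric coordinates: the two events and their relation
to the events of project TP.
-/

set_option autoImplicit false

namespace Pool.Agent.H965.Both

open Pool.Agent.H988R2.Perc hiding X
open Pool.Agent.H981R2.TP
open MeasureTheory Relation

/-! ### invariance of the measure -/

theorem perc_reindex (e : Edge ≃ Edge) (S : Set Conf) :
    perc {ω | (fun x => ω (e x)) ∈ S} = perc S := by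
  have h := Measure.infinitePi_map_piCongrLeft (X := fun _ : Edge => Bool)
    (fun _ : Edge => coin) e.symm
  have h2 : (Measure.infinitePi fun _ : Edge => coin) = perc := rfl
  rw [h2] at h
  have h3 : perc S = (perc.map (MeasurableEquiv.piCongrLeft (fun _ : Edge => Bool) e.symm)) S := by
    rw [h]
  rw [h3, MeasurableEquiv.map_apply]
  congr 1
  ext ω
  rw [Set.mem_preimage]
  have : MeasurableEquiv.piCongrLeft (fun _ : Edge => Bool) e.symm ω = fun x => ω (e x) := by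
    funext x
    have := Equiv.piCongrLeft_apply_apply (fun _ : Edge => Bool) e.symm ω (e x)
    rw [Equiv.symm_apply_apply] at this
    exact this
  rw [this]
  exact Iff.rfl

theorem perc_real_reindex (e : Edge ≃ Edge) (S : Set Conf) :
    perc.real {ω | (fun x => ω (e x)) ∈ S} = perc.real S := by
  unfold Measure.real
  rw [perc_reindex]

/-! ### the slit strip -/

/-- adjacency in the slit strip: columns `0, …, a+b+2`, no edges above the tip in the column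
`a+1` -/
def Adj2 (a b : ℕ) (ω : Conf) (x y : ℤ × ℤ) : Prop :=
  OpenAdj ω x y ∧ (0 ≤ x.1 - x.2 ∧ x.1 - x.2 ≤ a + b + 2) ∧ (0 ≤ y.1 - y.2 ∧ y.1 - y.2 ≤ a + b + 2) ∧
  ¬ (0 ≤ x.1 + x.2 ∧ 0 ≤ y.1 + y.2 ∧ (x.1 - x.2 = a + 1 ∨ y.1 - y.2 = a + 1))

/-- the tip (`a` odd) -/
def tip2 (a : ℕ) : ℤ × ℤ := ((a + 1) / 2, -((a + 1) / 2))

/-- the tip is joined to the left side -/
def ToL (a b : ℕ) : Set Conf :=
  {ω | ∃ y : ℤ × ℤ, y.1 - y.2 = 0 ∧ ReflTransGen (Adj2 a b ω) (tip2 a) y}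

/-- the tip is joined to the right side -/
def ToR (a b : ℕ) : Set Conf :=
  {ω | ∃ y : ℤ × ℤ, y.1 - y.2 = a + b + 2 ∧ ReflTransGen (Adj2 a b ω) (tip2 a) y}

/-! ### shifts -/

/-- shift of the edges by `(1,0)` -/
def e1 : Edge ≃ Edge where
  toFun e := (e.1 + 1, e.2.1, e.2.2)
  invFun e := (e.1 - 1, e.2.1, e.2.2)
  left_inv e := by simp
  right_inv e := by simp

/-- shift of the edges by `(0,-1)` -/
def e2 : Edge ≃ Edge where
  toFun e := (e.1, e.2.1 - 1, e.2.2)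
  invFun e := (e.1, e.2.1 + 1, e.2.2)
  left_inv e := by simp
  right_inv e := by simp

/-- reflection of the edges -/
def e3 (k : ℤ) : Edge ≃ Edge where
  toFun e := (e.2.1 + k, e.1 - k, !e.2.2)
  invFun e := (e.2.1 + k, e.1 - k, !e.2.2)
  left_inv e := by simp
  right_inv e := by simp

theorem open_e1 (ω : Conf) (x y : ℤ × ℤ) :
    OpenAdj (fun e => ω (e1 e)) x y ↔ OpenAdj ω (x.1 + 1, x.2) (y.1 + 1, y.2) := by
  obtain ⟨x1, x2⟩ := x
  obtain ⟨y1, y2⟩ := y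
  unfold OpenAdj e1
  simp only [Equiv.coe_fn_mk, Prod.mk.injEq, add_left_inj]

theorem open_e2 (ω : Conf) (x y : ℤ × ℤ) :
    OpenAdj (fun e => ω (e2 e)) x y ↔ OpenAdj ω (x.1, x.2 - 1) (y.1, y.2 - 1) := by
  obtain ⟨x1, x2⟩ := x
  obtain ⟨y1, y2⟩ := y
  unfold OpenAdj e2
  simp only [Equiv.coe_fn_mk, Prod.mk.injEq]
  constructor
  · rintro (⟨⟨h1, h2⟩, h3⟩ | ⟨⟨h1, h2⟩, h3⟩ | ⟨⟨h1, h2⟩, h3⟩ | ⟨⟨h1, h2⟩, h3⟩)
    · exact Or.inl ⟨⟨h1, by omega⟩, h3⟩
    · exact Or.inr (Or.inl ⟨⟨h1, by omega⟩, h3⟩)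
    · exact Or.inr (Or.inr (Or.inl ⟨⟨h1, by omega⟩, h3⟩))
    · exact Or.inr (Or.inr (Or.inr ⟨⟨h1, by omega⟩, h3⟩))
  · rintro (⟨⟨h1, h2⟩, h3⟩ | ⟨⟨h1, h2⟩, h3⟩ | ⟨⟨h1, h2⟩, h3⟩ | ⟨⟨h1, h2⟩, h3⟩)
    · exact Or.inl ⟨⟨h1, by omega⟩, h3⟩
    · exact Or.inr (Or.inl ⟨⟨h1, by omega⟩, h3⟩)
    · exact Or.inr (Or.inr (Or.inl ⟨⟨h1, by omega⟩, h3⟩))
    · exact Or.inr (Or.inr (Or.inr ⟨⟨h1, by omega⟩, h3⟩))

theorem open_e3 (k : ℤ) (ω : Conf) (x y : ℤ × ℤ) :
    OpenAdj (fun e => ω (e3 k e)) x y ↔ OpenAdj ω (x.2 + k, x.1 - k) (y.2 + k, y.1 - k) := by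
  obtain ⟨x1, x2⟩ := x
  obtain ⟨y1, y2⟩ := y
  unfold OpenAdj e3
  simp only [Equiv.coe_fn_mk, Prod.mk.injEq, Bool.not_false, Bool.not_true]
  constructor
  · rintro (⟨⟨h1, h2⟩, h3⟩ | ⟨⟨h1, h2⟩, h3⟩ | ⟨⟨h1, h2⟩, h3⟩ | ⟨⟨h1, h2⟩, h3⟩)
    · exact Or.inr (Or.inr (Or.inl ⟨⟨by omega, by omega⟩, h3⟩))
    · exact Or.inr (Or.inr (Or.inr ⟨⟨by omega, by omega⟩, h3⟩))
    · exact Or.inl ⟨⟨by omega, by omega⟩, h3⟩
    · exact Or.inr (Or.inl ⟨⟨by omega, by omega⟩, h3⟩)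
  · rintro (⟨⟨h1, h2⟩, h3⟩ | ⟨⟨h1, h2⟩, h3⟩ | ⟨⟨h1, h2⟩, h3⟩ | ⟨⟨h1, h2⟩, h3⟩)
    · exact Or.inr (Or.inr (Or.inl ⟨⟨by omega, by omega⟩, h3⟩))
    · exact Or.inr (Or.inr (Or.inr ⟨⟨by omega, by omega⟩, h3⟩))
    · exact Or.inl ⟨⟨by omega, by omega⟩, h3⟩
    · exact Or.inr (Or.inl ⟨⟨by omega, by omega⟩, h3⟩)

theorem rtg_map {α β : Type*} {r : α → α → Prop} {s : β → β → Prop} (f : α → β)
    (h : ∀ x y, r x y → s (f x) (f y)) {x y : α} (hxy : ReflTransGen r x y) :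
    ReflTransGen s (f x) (f y) := by
  induction hxy with
  | refl => exact ReflTransGen.refl
  | tail _ h2 ih => exact ih.tail (h _ _ h2)

theorem fo_mono (ω : Conf) {x y : ℤ × ℤ} (h : OpenAdj ω x y) : OpenAdj (fo ω) x y := by
  have key : ∀ e, ω e = true → fo ω e = true := by
    intro e he
    unfold fo
    split_ifs
    · rfl
    · exact he
  rcases h with ⟨h1, h2⟩ | ⟨h1, h2⟩ | ⟨h1, h2⟩ | ⟨h1, h2⟩
  · exact Or.inl ⟨h1, key _ h2⟩
  · exact Or.inr (Or.inl ⟨h1, key _ h2⟩)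
  · exact Or.inr (Or.inr (Or.inl ⟨h1, key _ h2⟩))
  · exact Or.inr (Or.inr (Or.inr ⟨h1, key _ h2⟩))

theorem of_fo (ω : Conf) {x y : ℤ × ℤ} (h : OpenAdj (fo ω) x y) (hx : 2 ≤ x.1 - x.2)
    (hy : 1 ≤ y.1 - y.2) : OpenAdj ω x y := by
  have key : ∀ e : Edge, ¬ ((e.2.2 = true ∧ e.1 = e.2.1 + 1) ∨ (e.2.2 = false ∧ e.1 = e.2.1)) →
      fo ω e = true → ω e = true := by
    intro e he h
    unfold fo at h
    rw [if_neg he] at h
    exact h
  obtain ⟨x1, x2⟩ := x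
  obtain ⟨y1, y2⟩ := y
  dsimp only at hx hy
  rcases h with ⟨h1, h2⟩ | ⟨h1, h2⟩ | ⟨h1, h2⟩ | ⟨h1, h2⟩
  · exact Or.inl ⟨h1, key _ (by simp; omega) h2⟩
  · simp only [Prod.mk.injEq] at h1
    exact Or.inr (Or.inl ⟨by simp only [Prod.mk.injEq]; exact h1, key _ (by simp; omega) h2⟩)
  · exact Or.inr (Or.inr (Or.inl ⟨h1, key _ (by simp; omega) h2⟩))
  · simp only [Prod.mk.injEq] at h1
    exact Or.inr (Or.inr (Or.inr ⟨by simp only [Prod.mk.injEq]; exact h1,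
      key _ (by simp; omega) h2⟩))

theorem tip_shift1 (a : ℕ) (ha : Odd a) : ((tip2 a).1 + 1, (tip2 a).2) = tip (a+1) := by
  obtain ⟨m, rfl⟩ := ha
  unfold tip2 tip
  apply Prod.ext
  · dsimp only; push_cast; omega
  · dsimp only; push_cast; omega

theorem tip_shift2 (a : ℕ) (ha : Odd a) : ((tip (a-1)).1, (tip (a-1)).2 - 1) = tip2 a := by
  obtain ⟨m, rfl⟩ := ha
  unfold tip2 tip
  rw [Nat.add_sub_cancel]
  apply Prod.ext
  · dsimp only; push_cast; omega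
  · dsimp only; push_cast; omega

/-- the union of the two events is the event of `exactD` -/
theorem union_iff (a b : ℕ) (ha : Odd a) (ω : Conf) :
    (fun e => ω (e1 e)) ∈ ToL a b ∪ ToR a b ↔ ω ∈ TipD (a+1) b := by
  constructor
  · intro h
    have key : ∃ y : ℤ × ℤ, (y.1 - y.2 = 0 ∨ y.1 - y.2 = a + b + 2) ∧
        ReflTransGen (Adj2 a b (fun e => ω (e1 e))) (tip2 a) y := by
      rcases h with ⟨y, hy, h⟩ | ⟨y, hy, h⟩
      · exact ⟨y, Or.inl hy, h⟩
      · exact ⟨y, Or.inr hy, h⟩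
    obtain ⟨y, hy, h⟩ := key
    refine ⟨(y.1 + 1, y.2), ?_, ?_⟩
    · push_cast
      rcases hy with hy | hy
      · right; omega
      · left; omega
    · rw [← tip_shift1 a ha]
      refine rtg_map (fun x : ℤ × ℤ => (x.1 + 1, x.2)) ?_ h
      rintro x z ⟨h1, h2, h3, h4⟩
      refine ⟨fo_mono ω ((open_e1 ω x z).1 h1), ?_, ?_, ?_⟩
      · push_cast; omega
      · push_cast; omega
      · push_cast
        rintro ⟨g1, g2, g3⟩
        exact h4 ⟨by omega, by omega, by omega⟩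
  · rintro ⟨y, hy, h⟩
    have key : (fun e => ω (e1 e)) ∈ ToL a b ∪ ToR a b ∨
        (ReflTransGen (Adj2 a b (fun e => ω (e1 e))) (tip2 a) (y.1 - 1, y.2) ∧
          2 ≤ y.1 - y.2) := by
      clear hy
      induction h with
      | refl =>
        right
        rw [← tip_shift1 a ha]
        obtain ⟨m, rfl⟩ := ha
        refine ⟨?_, ?_⟩
        · dsimp only
          rw [add_sub_cancel_right]
        · unfold tip2; dsimp only; push_cast; omega
      | tail _ hs ih =>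
        rename_i x z _
        rcases ih with ih | ⟨ih, hx⟩
        · exact Or.inl ih
        · obtain ⟨h1, h2, h3, h4⟩ := hs
          have hz : 1 ≤ z.1 - z.2 := by
            rcases h1 with ⟨g, _⟩ | ⟨g, _⟩ | ⟨g, _⟩ | ⟨g, _⟩
            all_goals
              have g1 := congrArg Prod.fst g
              have g2 := congrArg Prod.snd g
              dsimp only at g1 g2
              omega
          have ho := of_fo ω h1 hx hz
          have hr : ReflTransGen (Adj2 a b (fun e => ω (e1 e))) (tip2 a) (z.1 - 1, z.2) := by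
            refine ih.tail ⟨?_, ?_, ?_, ?_⟩
            · rw [open_e1]
              simpa using ho
            · push_cast at h2; dsimp only; omega
            · push_cast at h3; dsimp only; omega
            · push_cast at h4; dsimp only
              rintro ⟨g1, g2, g3⟩
              exact h4 ⟨by omega, by omega, by omega⟩
          by_cases hz2 : z.1 - z.2 = 1
          · left; left
            exact ⟨(z.1 - 1, z.2), by dsimp only; omega, hr⟩
          · right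
            exact ⟨hr, by omega⟩
    rcases key with key | ⟨key, hy2⟩
    · exact key
    · right
      refine ⟨(y.1 - 1, y.2), ?_, key⟩
      push_cast at hy
      dsimp only
      omega

/-- the exact value for the union -/
theorem real_union (a b : ℕ) (ha : Odd a) (hb : Odd b) :
    perc.real (ToL a b ∪ ToR a b) = tipFormula a b := by
  rw [← exactD a b ha hb, ← perc_real_reindex e1 (ToL a b ∪ ToR a b)]
  congr 1
  ext ω
  exact union_iff a b ha ω

/-- upper bound for the event `ToR` -/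
theorem toR_le (a b : ℕ) (ha : Odd a) (hb : Odd b) :
    perc.real (ToR a b) ≤ tipFormula (a+1) b := by
  rw [← exact_tip (a+1) b ha.add_one hb, ← perc_real_reindex e1 (ToR a b)]
  refine measureReal_mono ?_ (measure_ne_top _ _)
  rintro ω ⟨y, hy, h⟩
  refine ⟨(y.1 + 1, y.2), ?_, ?_⟩
  · push_cast; omega
  · rw [← tip_shift1 a ha]
    refine rtg_map (fun x : ℤ × ℤ => (x.1 + 1, x.2)) ?_ h
    rintro x z ⟨h1, h2, h3, h4⟩
    refine ⟨(open_e1 ω x z).1 h1, ?_, ?_, ?_⟩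
    · push_cast; omega
    · push_cast; omega
    · push_cast
      rintro ⟨g1, g2, g3⟩
      exact h4 ⟨by omega, by omega, by omega⟩

/-- lower bound for the event `ToR` -/
theorem le_toR (a b : ℕ) (ha : Odd a) (hb : Odd b) :
    tipFormula (a-1) b ≤ perc.real (ToR a b) := by
  have ha' : Even (a-1) := by obtain ⟨m, rfl⟩ := ha; exact ⟨m, by omega⟩
  have haz : ((a - 1 : ℕ) : ℤ) = (a : ℤ) - 1 := by obtain ⟨m, rfl⟩ := ha; omega
  rw [← exact_tip (a-1) b ha' hb, ← perc_real_reindex e2 (TipArm (a-1) b)]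
  refine measureReal_mono ?_ (measure_ne_top _ _)
  rintro ω ⟨y, hy, h⟩
  refine ⟨(y.1, y.2 - 1), ?_, ?_⟩
  · rw [haz] at hy; dsimp only; omega
  · rw [← tip_shift2 a ha]
    refine rtg_map (fun x : ℤ × ℤ => (x.1, x.2 - 1)) ?_ h
    rintro x z ⟨h1, h2, h3, h4⟩
    rw [haz] at h2 h3 h4
    refine ⟨(open_e2 ω x z).1 h1, ?_, ?_, ?_⟩
    · dsimp only; omega
    · dsimp only; omega
    · dsimp only
      rintro ⟨g1, g2, g3⟩
      exact h4 ⟨by omega, by omega, by omega⟩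

/-- reflection -/
theorem toL_eq (a b : ℕ) (ha : Odd a) (hb : Odd b) :
    perc.real (ToL a b) = perc.real (ToR b a) := by
  obtain ⟨m, rfl⟩ := ha
  obtain ⟨n, rfl⟩ := hb
  rw [← perc_real_reindex (e3 (m + n + 2)) (ToR (2*n+1) (2*m+1))]
  congr 1
  have step : ∀ (a b : ℕ) (ω : Conf) (x z : ℤ × ℤ), (a : ℤ) + b = 2 * m + 2 * n + 2 →
      Adj2 b a (fun e => ω (e3 (m + n + 2) e)) x z →
      Adj2 a b ω (x.2 + (m + n + 2), x.1 - (m + n + 2)) (z.2 + (m + n + 2), z.1 - (m + n + 2)) := by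
    rintro a b ω x z hab ⟨h1, h2, h3, h4⟩
    refine ⟨(open_e3 _ ω x z).1 h1, ?_, ?_, ?_⟩
    · dsimp only; omega
    · dsimp only; omega
    · dsimp only
      rintro ⟨g1, g2, g3⟩
      exact h4 ⟨by omega, by omega, by omega⟩
  have step' : ∀ (a b : ℕ) (ω : Conf) (x z : ℤ × ℤ), (a : ℤ) + b = 2 * m + 2 * n + 2 →
      Adj2 a b ω x z →
      Adj2 b a (fun e => ω (e3 (m + n + 2) e)) (x.2 + (m + n + 2), x.1 - (m + n + 2))
        (z.2 + (m + n + 2), z.1 - (m + n + 2)) := by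
    rintro a b ω x z hab ⟨h1, h2, h3, h4⟩
    refine ⟨?_, ?_, ?_, ?_⟩
    · rw [open_e3]
      simpa using h1
    · dsimp only; omega
    · dsimp only; omega
    · dsimp only
      rintro ⟨g1, g2, g3⟩
      exact h4 ⟨by omega, by omega, by omega⟩
  have ht : ∀ m' n' : ℕ, m' + n' = m + n →
      ((tip2 (2*m'+1)).2 + ((m : ℤ) + n + 2), (tip2 (2*m'+1)).1 - ((m : ℤ) + n + 2)) =
        tip2 (2*n'+1) := by
    intro m' n' h
    unfold tip2
    apply Prod.ext
    · dsimp only; push_cast; omega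
    · dsimp only; push_cast; omega
  ext ω
  constructor
  · rintro ⟨y, hy, h⟩
    refine ⟨(y.2 + ((m : ℤ) + n + 2), y.1 - ((m : ℤ) + n + 2)), ?_, ?_⟩
    · dsimp only; push_cast; omega
    · rw [← ht m n rfl]
      exact rtg_map (fun x : ℤ × ℤ => (x.2 + ((m : ℤ) + n + 2), x.1 - ((m : ℤ) + n + 2)))
        (fun x z hxz => step' (2*m+1) (2*n+1) ω x z (by push_cast; ring) hxz) h
  · rintro ⟨y, hy, h⟩
    refine ⟨(y.2 + ((m : ℤ) + n + 2), y.1 - ((m : ℤ) + n + 2)), ?_, ?_⟩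
    · push_cast at hy; dsimp only; omega
    · rw [← ht n m (by ring)]
      exact rtg_map (fun x : ℤ × ℤ => (x.2 + ((m : ℤ) + n + 2), x.1 - ((m : ℤ) + n + 2)))
        (fun x z hxz => step (2*m+1) (2*n+1) ω x z (by push_cast; ring) hxz) h

/-! ### measurability -/

theorem meas_open (x y : ℤ × ℤ) : MeasurableSet {ω : Conf | OpenAdj ω x y} := by
  have h : ∀ e : Edge, MeasurableSet {ω : Conf | ω e = true} := fun e =>
    measurableSet_preimage (measurable_pi_apply (X := fun _ : Edge => Bool) e)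
      (measurableSet_singleton true)
  have e : {ω : Conf | OpenAdj ω x y} =
      ({ω | y = (x.1 + 1, x.2)} ∩ {ω | ω (x.1, x.2, false) = true}) ∪
      (({ω | x = (y.1 + 1, y.2)} ∩ {ω | ω (y.1, y.2, false) = true}) ∪
      (({ω | y = (x.1, x.2 + 1)} ∩ {ω | ω (x.1, x.2, true) = true}) ∪
      ({ω | x = (y.1, y.2 + 1)} ∩ {ω | ω (y.1, y.2, true) = true}))) := by
    ext ω
    rfl
  rw [e]
  exact ((MeasurableSet.const _).inter (h _)).union (((MeasurableSet.const _).inter (h _)).union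
    (((MeasurableSet.const _).inter (h _)).union ((MeasurableSet.const _).inter (h _))))

/-- reachable in `n` steps -/
def RN (r : Conf → ℤ × ℤ → ℤ × ℤ → Prop) (x : ℤ × ℤ) : ℕ → ℤ × ℤ → Set Conf
  | 0, y => {_ω | x = y}
  | n+1, y => ⋃ z : ℤ × ℤ, RN r x n z ∩ {ω | r ω z y}

theorem meas_RN (r : Conf → ℤ × ℤ → ℤ × ℤ → Prop)
    (hr : ∀ x y, MeasurableSet {ω | r ω x y}) (x : ℤ × ℤ) (n : ℕ) :
    ∀ y, MeasurableSet (RN r x n y) := by
  induction n with
  | zero => intro y; exact MeasurableSet.const _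
  | succ n ih => intro y; exact MeasurableSet.iUnion fun z => (ih z).inter (hr z y)

theorem rtg_iff (r : Conf → ℤ × ℤ → ℤ × ℤ → Prop) (x y : ℤ × ℤ) (ω : Conf) :
    ReflTransGen (r ω) x y ↔ ∃ n, ω ∈ RN r x n y := by
  constructor
  · intro h
    induction h with
    | refl => exact ⟨0, rfl⟩
    | tail _ h2 ih =>
      obtain ⟨n, hn⟩ := ih
      exact ⟨n+1, Set.mem_iUnion.2 ⟨_, hn, h2⟩⟩
  · rintro ⟨n, hn⟩
    induction n generalizing y with
    | zero => rw [show x = y from hn]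
    | succ n ih =>
      obtain ⟨z, h1, h2⟩ := Set.mem_iUnion.1 hn
      exact (ih z h1).tail h2

theorem meas_rtg (r : Conf → ℤ × ℤ → ℤ × ℤ → Prop)
    (hr : ∀ x y, MeasurableSet {ω | r ω x y}) (x : ℤ × ℤ) (p : ℤ × ℤ → Prop) :
    MeasurableSet {ω | ∃ y, p y ∧ ReflTransGen (r ω) x y} := by
  have e : {ω | ∃ y, p y ∧ ReflTransGen (r ω) x y} =
      ⋃ y : ℤ × ℤ, ({_ω | p y} ∩ ⋃ n, RN r x n y) := by
    ext ω
    simp only [Set.mem_ofPred_eq, Set.mem_iUnion, Set.mem_inter_iff, rtg_iff]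
  rw [e]
  exact MeasurableSet.iUnion fun y => (MeasurableSet.const _).inter
    (MeasurableSet.iUnion fun n => meas_RN r hr x n y)

theorem meas_adj2 (a b : ℕ) (x y : ℤ × ℤ) : MeasurableSet {ω | Adj2 a b ω x y} := by
  have e : {ω | Adj2 a b ω x y} = {ω | OpenAdj ω x y} ∩ {_ω |
    (0 ≤ x.1 - x.2 ∧ x.1 - x.2 ≤ a + b + 2) ∧ (0 ≤ y.1 - y.2 ∧ y.1 - y.2 ≤ a + b + 2) ∧
    ¬ (0 ≤ x.1 + x.2 ∧ 0 ≤ y.1 + y.2 ∧ (x.1 - x.2 = a + 1 ∨ y.1 - y.2 = a + 1))} := by
    ext ω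
    rfl
  rw [e]
  exact (meas_open x y).inter (MeasurableSet.const _)

theorem meas_ToL (a b : ℕ) : MeasurableSet (ToL a b) :=
  meas_rtg (Adj2 a b) (meas_adj2 a b) _ _

theorem meas_ToR (a b : ℕ) : MeasurableSet (ToR a b) :=
  meas_rtg (Adj2 a b) (meas_adj2 a b) _ _

/-- inclusion-exclusion -/
theorem real_inter (a b : ℕ) (ha : Odd a) (hb : Odd b) :
    perc.real (ToL a b ∩ ToR a b) =
      perc.real (ToR b a) + perc.real (ToR a b) - tipFormula a b := by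
  have h := measureReal_union_add_inter (μ := perc) (s := ToL a b) (meas_ToR a b)
  rw [real_union a b ha hb, toL_eq a b ha hb] at h
  linarith

end Pool.Agent.H965.Both
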