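import Pool.Agent.H965.Both.Win
import Pool.Agent.H965.Both.Alg

/-!
The probability that the tip of a slit is joined to one of the two sides of the strip.
-/

set_option autoImplicit false

namespace Pool.Agent.H965.Both

open Pool.Agent.H988R2.Perc hiding X
open Pool.Agent.H492C
open Pool.Agent.H981R2.TP
open Pool.Agent.H981R2.TP.C10 (X_futR Tr)
open Finset Filter Topology MeasureTheory Relation

/-! ### trilinear pairings with an arbitrary relation -/

open Classical in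
/-- the trilinear pairing attached to a relation -/
noncomputable def pairQ (Q : St → St → St → Prop) (f g h : St →₀ ℂ) : ℂ :=
  f.sum fun R α => g.sum fun R1 β => h.sum fun R2 γ =>
    α * β * γ * (if Q R R1 R2 then 1 else 0)

variable (Q : St → St → St → Prop)

open Classical in
theorem pairQ_sum (α β γ : ℂ) (P0 P1 P2 : Finset (Finset (ℕ × ℕ)))
    (R0 R1 R2 : Finset (ℕ × ℕ) → St) :
    pairQ Q (α • ∑ t ∈ P0, Finsupp.single (R0 t) (1:ℂ)) (β • ∑ t ∈ P1, Finsupp.single (R1 t) (1:ℂ))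
      (γ • ∑ t ∈ P2, Finsupp.single (R2 t) (1:ℂ)) =
    α * β * γ * ∑ t0 ∈ P0, ∑ t1 ∈ P1, ∑ t2 ∈ P2,
      (if Q (R0 t0) (R1 t1) (R2 t2) then 1 else 0) := by
  have key : ∀ f g h : St →₀ ℂ, pairQ Q f g h =
      Finsupp.linearCombination ℂ (fun R => Finsupp.linearCombination ℂ
        (fun R1 => Finsupp.linearCombination ℂ
          (fun R2 => if Q R R1 R2 then (1:ℂ) else 0) h) g) f := by
    intro f g h
    unfold pairQ
    rw [Finsupp.linearCombination_apply]
    apply Finsupp.sum_congr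
    intro x _
    rw [Finsupp.linearCombination_apply, Finsupp.sum, Finsupp.sum, Finset.smul_sum]
    apply Finset.sum_congr rfl
    intro y _
    rw [Finsupp.linearCombination_apply, Finsupp.sum, Finsupp.sum, Finset.smul_sum,
      Finset.smul_sum]
    apply Finset.sum_congr rfl
    intro w _
    simp only [smul_eq_mul]
    ring
  rw [key, map_smul, map_sum]
  simp only [Finsupp.linearCombination_single, map_smul, map_sum, smul_eq_mul]
  simp only [Finset.mul_sum]
  refine Finset.sum_congr rfl fun t0 _ => Finset.sum_congr rfl fun t1 _ =>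
    Finset.sum_congr rfl fun t2 _ => ?_
  ring

theorem pairQ_add1 (f f' g h : St →₀ ℂ) :
    pairQ Q (f + f') g h = pairQ Q f g h + pairQ Q f' g h := by
  classical
  unfold pairQ
  refine Finsupp.sum_add_index' (fun R => by simp) (fun R x y => ?_)
  rw [← Finsupp.sum_add]
  refine Finsupp.sum_congr fun R1 _ => ?_
  rw [← Finsupp.sum_add]
  refine Finsupp.sum_congr fun R2 _ => ?_
  ring

theorem pairQ_add2 (f g g' h : St →₀ ℂ) :
    pairQ Q f (g + g') h = pairQ Q f g h + pairQ Q f g' h := by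
  classical
  unfold pairQ
  rw [← Finsupp.sum_add]
  refine Finsupp.sum_congr fun R _ => ?_
  refine Finsupp.sum_add_index' (fun R => by simp) (fun R x y => ?_)
  rw [← Finsupp.sum_add]
  refine Finsupp.sum_congr fun R2 _ => ?_
  ring

theorem pairQ_add3 (f g h h' : St →₀ ℂ) :
    pairQ Q f g (h + h') = pairQ Q f g h + pairQ Q f g h' := by
  classical
  unfold pairQ
  rw [← Finsupp.sum_add]
  refine Finsupp.sum_congr fun R _ => ?_
  rw [← Finsupp.sum_add]
  refine Finsupp.sum_congr fun R1 _ => ?_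
  refine Finsupp.sum_add_index' (fun R => by simp) (fun R x y => ?_)
  ring

theorem pairQ_smul1 (c : ℂ) (f g h : St →₀ ℂ) :
    pairQ Q (c • f) g h = c * pairQ Q f g h := by
  classical
  unfold pairQ
  rw [Finsupp.sum_smul_index' (fun R => by simp), Finsupp.mul_sum]
  refine Finsupp.sum_congr fun R _ => ?_
  rw [Finsupp.mul_sum]
  refine Finsupp.sum_congr fun R1 _ => ?_
  rw [Finsupp.mul_sum]
  refine Finsupp.sum_congr fun R2 _ => ?_
  simp only [smul_eq_mul]
  ring

theorem pairQ_smul2 (c : ℂ) (f g h : St →₀ ℂ) :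
    pairQ Q f (c • g) h = c * pairQ Q f g h := by
  classical
  unfold pairQ
  rw [Finsupp.mul_sum]
  refine Finsupp.sum_congr fun R _ => ?_
  rw [Finsupp.sum_smul_index' (fun R => by simp), Finsupp.mul_sum]
  refine Finsupp.sum_congr fun R1 _ => ?_
  rw [Finsupp.mul_sum]
  refine Finsupp.sum_congr fun R2 _ => ?_
  simp only [smul_eq_mul]
  ring

theorem pairQ_smul3 (c : ℂ) (f g h : St →₀ ℂ) :
    pairQ Q f g (c • h) = c * pairQ Q f g h := by
  classical
  unfold pairQ
  rw [Finsupp.mul_sum]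
  refine Finsupp.sum_congr fun R _ => ?_
  rw [Finsupp.mul_sum]
  refine Finsupp.sum_congr fun R1 _ => ?_
  rw [Finsupp.sum_smul_index' (fun R => by simp), Finsupp.mul_sum]
  refine Finsupp.sum_congr fun R2 _ => ?_
  simp only [smul_eq_mul]
  ring

theorem pairQ_bound (f g h : St →₀ ℂ) :
    ‖pairQ Q f g h‖ ≤ T24.nrm f * T24.nrm g * T24.nrm h := by
  classical
  unfold pairQ T24.nrm
  rw [mul_assoc, Finsupp.sum, Finsupp.sum, Finset.sum_mul]
  refine (norm_sum_le _ _).trans (Finset.sum_le_sum fun R _ => ?_)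
  rw [Finsupp.sum, Finsupp.sum, Finset.sum_mul, Finset.mul_sum]
  refine (norm_sum_le _ _).trans (Finset.sum_le_sum fun R1 _ => ?_)
  rw [Finsupp.sum, Finsupp.sum, Finset.mul_sum, Finset.mul_sum]
  refine (norm_sum_le _ _).trans (Finset.sum_le_sum fun R2 _ => ?_)
  rw [norm_mul, norm_mul, norm_mul]
  have : ‖(if Q R R1 R2 then (1:ℂ) else 0)‖ ≤ 1 := by
    split_ifs <;> simp
  calc ‖f R‖ * ‖g R1‖ * ‖h R2‖ * ‖(if Q R R1 R2 then (1:ℂ) else 0)‖
      ≤ ‖f R‖ * ‖g R1‖ * ‖h R2‖ * 1 :=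
        mul_le_mul_of_nonneg_left this (by positivity)
    _ = ‖f R‖ * (‖g R1‖ * ‖h R2‖) := by ring

theorem pairQ_term (x y z : ℕ → St →₀ ℂ) (l m n : ℝ)
    (hx : Tendsto (fun M => T24.nrm (x M)) atTop (𝓝 l))
    (hy : Tendsto (fun M => T24.nrm (y M)) atTop (𝓝 m))
    (hz : Tendsto (fun M => T24.nrm (z M)) atTop (𝓝 n)) (h0 : l * m * n = 0) :
    Tendsto (fun M => pairQ Q (x M) (y M) (z M)) atTop (𝓝 0) := by
  refine squeeze_zero_norm (a := fun M => T24.nrm (x M) * T24.nrm (y M) * T24.nrm (z M)) ?_ ?_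
  · intro M
    exact pairQ_bound Q (x M) (y M) (z M)
  · have := (hx.mul hy).mul hz
    rwa [h0] at this

theorem pairQ_tendsto (f0 f1 f2 : ℕ → St →₀ ℂ) (w0 w1 w2 : St →₀ ℂ)
    (h0 : Tendsto (fun M => T24.nrm (f0 M + (-1 : ℂ) • w0)) atTop (𝓝 0))
    (h1 : Tendsto (fun M => T24.nrm (f1 M + (-1 : ℂ) • w1)) atTop (𝓝 0))
    (h2 : Tendsto (fun M => T24.nrm (f2 M + (-1 : ℂ) • w2)) atTop (𝓝 0)) :
    Tendsto (fun M => pairQ Q (f0 M) (f1 M) (f2 M)) atTop (𝓝 (pairQ Q w0 w1 w2)) := by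
  have c0 : Tendsto (fun _ : ℕ => T24.nrm w0) atTop (𝓝 (T24.nrm w0)) := tendsto_const_nhds
  have c1 : Tendsto (fun _ : ℕ => T24.nrm w1) atTop (𝓝 (T24.nrm w1)) := tendsto_const_nhds
  have c2 : Tendsto (fun _ : ℕ => T24.nrm w2) atTop (𝓝 (T24.nrm w2)) := tendsto_const_nhds
  have e1 := pairQ_term Q _ _ _ 0 0 0 h0 h1 h2 (by ring)
  have e2 := pairQ_term Q _ _ (fun _ => w2) 0 0 _ h0 h1 c2 (by ring)
  have e3 := pairQ_term Q _ (fun _ => w1) _ 0 _ 0 h0 c1 h2 (by ring)
  have e4 := pairQ_term Q _ (fun _ => w1) (fun _ => w2) 0 _ _ h0 c1 c2 (by ring)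
  have e5 := pairQ_term Q (fun _ => w0) _ _ _ 0 0 c0 h1 h2 (by ring)
  have e6 := pairQ_term Q (fun _ => w0) _ (fun _ => w2) _ 0 _ c0 h1 c2 (by ring)
  have e7 := pairQ_term Q (fun _ => w0) (fun _ => w1) _ _ _ 0 c0 c1 h2 (by ring)
  have e8 : Tendsto (fun _ : ℕ => pairQ Q w0 w1 w2) atTop (𝓝 (pairQ Q w0 w1 w2)) :=
    tendsto_const_nhds
  have e := ((e1.add e2).add (e3.add e4)).add ((e5.add e6).add (e7.add e8))
  simp only [add_zero, zero_add] at e
  refine e.congr fun M => ?_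
  have expand : ∀ d0 d1 d2 : St →₀ ℂ, pairQ Q (d0 + w0) (d1 + w1) (d2 + w2) =
      ((pairQ Q d0 d1 d2 + pairQ Q d0 d1 w2) + (pairQ Q d0 w1 d2 + pairQ Q d0 w1 w2)) +
      ((pairQ Q w0 d1 d2 + pairQ Q w0 d1 w2) + (pairQ Q w0 w1 d2 + pairQ Q w0 w1 w2)) := by
    intro d0 d1 d2
    rw [pairQ_add1, pairQ_add2, pairQ_add2, pairQ_add3, pairQ_add3, pairQ_add3, pairQ_add3]
  rw [← expand, ← C13.dec, ← C13.dec, ← C13.dec]

/-! ### the events -/

/-- the tip (face `a+1`) is joined to the right wall (face `a+b+2`) or to the left wall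
(face `1`) -/
def connD (a b : ℕ) (R R1 R2 : St) : Prop :=
  EqvGen (J4 a R R1 R2) (a+1) (a+b+2) ∨ EqvGen (J4 a R R1 R2) (a+1) 1

/-- the window event -/
def WinD (a b M : ℕ) : Set Conf :=
  {ω | connD a b (Pool.Agent.H988R2.Perc.X (a+b+2) (force (actBit (oPast ω M))) M)
    (Pool.Agent.H988R2.Perc.X a (force (actBit (oFut ω M))) M)
    (Pool.Agent.H988R2.Perc.X b (actBit (oFutR2 a ω M)) M)}

/-- the tip is joined to one of the two walls (left wall: the column `1`) -/
def TipD (a b : ℕ) : Set Conf :=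
  {ω | ∃ y : ℤ × ℤ, (y.1 - y.2 = a + b + 2 ∨ y.1 - y.2 = 1) ∧
    Relation.ReflTransGen (TipAdj a b (fo ω)) (tip a) y}

theorem mem_WinD (a b M : ℕ) (ha : Even a) (ha2 : 2 ≤ a) (hb : Odd b) (ω : Conf) :
    ω ∈ WinD a b M ↔
      (EqvGen (FF a b M (fo ω)) ((a : ℤ) + 1, 0) ((a : ℤ) + b + 2, 0) ∨
      EqvGen (FF a b M (fo ω)) ((a : ℤ) + 1, 0) (1, 0)) := by
  have ha1 : a % 2 = 0 := Nat.even_iff.mp ha
  have hb1 : b % 2 = 1 := Nat.odd_iff.mp hb
  have e1 : (((a + 1 : ℕ) : ℤ)) = (a : ℤ) + 1 := by push_cast; ring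
  have e2 : (((a + b + 2 : ℕ) : ℤ)) = (a : ℤ) + b + 2 := by push_cast; ring
  unfold WinD connD
  rw [Set.mem_ofPred_eq, ← X_fo_past, ← X_fo_fut, ← X_fo_futR a b M ω]
  constructor
  · rintro (h | h)
    · have := c4g t_C1 t_C2 t_C3 a b M (fo ω) ha hb _ _ (by omega) h
      rw [e1, e2] at this
      exact Or.inl this
    · have := c4g t_C1 t_C2 t_C3 a b M (fo ω) ha hb _ _ (by omega) h
      rw [e1] at this
      exact Or.inr (by exact_mod_cast this)
  · rintro (h | h)
    · left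
      exact c5g t_C1 t_C2 t_C3 a b M (fo ω) ha hb (a+b+2) (by omega) le_rfl (by rw [e2]; exact h)
    · right
      exact c5g t_C1 t_C2 t_C3 a b M (fo ω) ha hb 1 (by omega) (by omega) (by exact_mod_cast h)

theorem WinD_mono (a b : ℕ) (ha : Even a) (ha2 : 2 ≤ a) (hb : Odd b) : Monotone (WinD a b) := by
  intro M M' hM ω h
  have h1 := (mem_WinD a b M ha ha2 hb ω).1 h
  refine (mem_WinD a b M' ha ha2 hb ω).2 ?_
  rcases h1 with h | h
  · exact Or.inl (h.mono fun _ _ h => C14.FF_mono hM h)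
  · exact Or.inr (h.mono fun _ _ h => C14.FF_mono hM h)

theorem iUnion_WinD (a b : ℕ) (ha : Even a) (ha2 : 2 ≤ a) (hb : Odd b) :
    ⋃ M, WinD a b M = TipD a b := by
  have ha1 : a % 2 = 0 := Nat.even_iff.mp ha
  have hb1 : b % 2 = 1 := Nat.odd_iff.mp hb
  ext ω
  rw [Set.mem_iUnion]
  constructor
  · rintro ⟨M, h⟩
    rcases (mem_WinD a b M ha ha2 hb ω).1 h with h | h
    · obtain ⟨y, hy, hp⟩ := c6g a b M (fo ω) ha hb (a+b+2) (by omega)
        (by push_cast; convert h using 2)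
      refine ⟨y, ?_, hp⟩
      rcases hy with hy | hy
      · exact Or.inl hy
      · left; push_cast at hy; exact hy
    · obtain ⟨y, hy, hp⟩ := c6g a b M (fo ω) ha hb 1 (by omega) (by exact_mod_cast h)
      refine ⟨y, ?_, hp⟩
      rcases hy with hy | hy
      · exact Or.inl hy
      · right; exact_mod_cast hy
  · rintro ⟨y, hy, hp⟩
    obtain ⟨M0, h0⟩ := c7g a b (fo ω) ha y hp
    rcases hy with hy | hy
    · refine ⟨M0, (mem_WinD a b M0 ha ha2 hb ω).2 (Or.inl ?_)⟩
      refine EqvGen.trans _ _ _ (h0 M0 le_rfl) (EqvGen.rel _ _ (Or.inl (Or.inr ⟨?_, rfl⟩)))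
      exact hy
    · -- `y` is in the column `1`
      have hpar : (y.1 + y.2 - 1) % 2 = 0 := by omega
      obtain ⟨n, hn⟩ : ∃ n : ℕ, y.1 + y.2 - 1 = 2 * (n : ℤ) ∨ y.1 + y.2 - 1 = -(2 * (n : ℤ)) := by
        refine ⟨((y.1 + y.2 - 1) / 2).natAbs, ?_⟩
        rcases le_total 0 (y.1 + y.2 - 1) with h | h
        · left; omega
        · right; omega
      refine ⟨max M0 n, (mem_WinD a b _ ha ha2 hb ω).2 (Or.inr ?_)⟩
      have h1 := h0 (max M0 n) (le_max_left _ _)
      have h2 := col_one a b (max M0 n) ω ha (by omega) n (le_max_right _ _)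
      rw [hy] at h1
      refine EqvGen.trans _ _ _ h1 ?_
      rcases hn with hn | hn
      · rw [hn]; exact h2.1
      · rw [hn]; exact h2.2

/-! ### probability of the window -/

theorem Xf_past (L M : ℕ) (ω : Conf) :
    Pool.Agent.H988R2.Perc.X L (force (actBit (oPast ω M))) M =
      Pool.Agent.H988R2.Perc.X L (force (actBit (T23.bits (T23.tP L M ω)))) M := by
  apply T23.X_congr
  intro k i hk h1 h2
  have : oPast ω M k i = T23.bits (T23.tP L M ω) k i := by
    have hm : (k, i) ∈ T23.SS L M := by rw [T23.mem_SS]; exact ⟨hk, h1, h2⟩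
    have key : (k, i) ∈ T23.tP L M ω ↔ oPast ω M k i = true := by
      unfold T23.tP
      rw [Finset.mem_filter]
      exact ⟨fun h => h.2, fun h => ⟨hm, h⟩⟩
    unfold T23.bits
    cases h : oPast ω M k i
    · symm; rw [decide_eq_false_iff_not, key, h]; simp
    · symm; rw [decide_eq_true_iff, key, h]
  simp only [force, actBit, this]

theorem Xf_fut (L M : ℕ) (ω : Conf) :
    Pool.Agent.H988R2.Perc.X L (force (actBit (oFut ω M))) M =
      Pool.Agent.H988R2.Perc.X L (force (actBit (T23.bits (T23.tF L M ω)))) M := by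
  apply T23.X_congr
  intro k i hk h1 h2
  have : oFut ω M k i = T23.bits (T23.tF L M ω) k i := by
    have hm : (k, i) ∈ T23.SS L M := by rw [T23.mem_SS]; exact ⟨hk, h1, h2⟩
    have key : (k, i) ∈ T23.tF L M ω ↔ oFut ω M k i = true := by
      unfold T23.tF
      rw [Finset.mem_filter]
      exact ⟨fun h => h.2, fun h => ⟨hm, h⟩⟩
    unfold T23.bits
    cases h : oFut ω M k i
    · symm; rw [decide_eq_false_iff_not, key, h]; simp
    · symm; rw [decide_eq_true_iff, key, h]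
  simp only [force, actBit, this]

open Classical in
/-- the good cells -/
noncomputable def goodD (a b M : ℕ) : Finset Tr :=
  ((T23.SS (a+b+2) M).powerset ×ˢ ((T23.SS a M).powerset ×ˢ (T23.SS b M).powerset)).filter
    (fun p => connD a b
      (Pool.Agent.H988R2.Perc.X (a+b+2) (force (actBit (T23.bits p.1))) M)
      (Pool.Agent.H988R2.Perc.X a (force (actBit (T23.bits p.2.1))) M)
      (Pool.Agent.H988R2.Perc.X b (actBit (T23.bits p.2.2)) M))

theorem mem_goodD {a b M : ℕ} {p : Tr} :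
    p ∈ goodD a b M ↔ (p.1 ⊆ T23.SS (a+b+2) M ∧ p.2.1 ⊆ T23.SS a M ∧ p.2.2 ⊆ T23.SS b M) ∧
      connD a b (Pool.Agent.H988R2.Perc.X (a+b+2) (force (actBit (T23.bits p.1))) M)
        (Pool.Agent.H988R2.Perc.X a (force (actBit (T23.bits p.2.1))) M)
        (Pool.Agent.H988R2.Perc.X b (actBit (T23.bits p.2.2)) M) := by
  classical
  unfold goodD
  rw [Finset.mem_filter, Finset.mem_product, Finset.mem_product, Finset.mem_powerset,
    Finset.mem_powerset, Finset.mem_powerset]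

theorem winD_eq (a b M : ℕ) :
    WinD a b M = ⋃ p ∈ goodD a b M, cell4 a b M p.1 p.2.1 p.2.2 := by
  ext ω
  simp only [WinD, Set.mem_ofPred_eq, Set.mem_iUnion, exists_prop]
  rw [Xf_past, Xf_fut, X_futR]
  constructor
  · intro h
    refine ⟨(T23.tP (a+b+2) M ω, T23.tF a M ω, tR2 a b M ω), ?_, rfl, rfl, rfl⟩
    rw [mem_goodD]
    exact ⟨⟨filter_subset _ _, filter_subset _ _, filter_subset _ _⟩, h⟩
  · rintro ⟨⟨p1, p2, p3⟩, hp, h1, h2, h3⟩
    simp only at h1 h2 h3
    subst h1 h2 h3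
    rw [mem_goodD] at hp
    exact hp.2

open Classical in
theorem sum_goodD (a b M : ℕ) :
    (∑ t0 ∈ (T23.SS (a+b+2) M).powerset, ∑ t1 ∈ (T23.SS a M).powerset,
        ∑ t2 ∈ (T23.SS b M).powerset,
        (if connD a b (Pool.Agent.H988R2.Perc.X (a+b+2) (force (actBit (T23.bits t0))) M)
          (Pool.Agent.H988R2.Perc.X a (force (actBit (T23.bits t1))) M)
          (Pool.Agent.H988R2.Perc.X b (actBit (T23.bits t2)) M) then (1 : ℂ) else 0)) =
      ((goodD a b M).card : ℂ) := by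
  unfold goodD
  rw [Finset.natCast_card_filter, Finset.sum_product]
  refine Finset.sum_congr rfl fun t0 _ => ?_
  rw [Finset.sum_product]

theorem perc_WinD (a b M : ℕ) : ((perc.real (WinD a b M) : ℝ) : ℂ) =
    pairQ (connD a b) (law1 (a+b+2) M) (law1 a M) (law b M) := by
  have hc : ∀ p ∈ goodD a b M, MeasurableSet (cell4 a b M p.1 p.2.1 p.2.2) ∧
      perc (cell4 a b M p.1 p.2.1 p.2.2) = (1/2) ^ (2*M*(a+b+2) + 2*M*a + 2*M*b) := by
    intro p hp
    obtain ⟨⟨h1, h2, h3⟩, _⟩ := mem_goodD.1 hp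
    exact t_C8 a b M p.1 p.2.1 p.2.2 h1 h2 h3
  rw [law1_eq, law1_eq, T23.law_eq, pairQ_sum, winD_eq, measureReal_biUnion_finset]
  · have h1 : ∀ p ∈ goodD a b M, perc.real (cell4 a b M p.1 p.2.1 p.2.2) =
        (1/2 : ℝ)^(2*M*(a+b+2) + 2*M*a + 2*M*b) := by
      intro p hp
      rw [measureReal_def, (hc p hp).2]
      simp
    rw [Finset.sum_congr rfl h1, Finset.sum_const, nsmul_eq_mul]
    rw [sum_goodD]
    push_cast
    rw [← pow_add, ← pow_add, mul_comm]
  · intro p _ p' _ hne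
    rw [Function.onFun, Set.disjoint_left]
    rintro ω ⟨h1, h2, h3⟩ ⟨h4, h5, h6⟩
    exact hne (Prod.ext (h1.symm.trans h4) (Prod.ext (h2.symm.trans h5) (h3.symm.trans h6)))
  · intro p hp
    exact (hc p hp).1

/-! ### the exact value -/

theorem pairQ_psi (a b : ℕ) (ha : Even a) (_ : 2 ≤ a) (hb : Odd b) (g : St →₀ ℂ)
    (h : St →₀ ℂ) :
    pairQ (connD a b) (psiA (a+b+1)) g h = pair4 a b (psiA (a+b+1)) g h := by
  classical
  unfold pairQ pair4
  refine Finsupp.sum_congr fun R hR => ?_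
  have hz : R.rel 1 (a+b+2) := by
    have := Pool.Agent.Y786.TLZ.z0 (List.replicate (a+b+1) 1)
      (by rw [List.length_replicate]; obtain ⟨m, hm⟩ := ha; obtain ⟨n, hn⟩ := hb
          exact ⟨m + n + 1, by omega⟩)
      (by intro z hz; rw [List.mem_replicate] at hz; rw [hz.2]; exact one_ne_zero) R hR
    rw [List.length_replicate] at this
    exact this
  refine Finsupp.sum_congr fun R1 _ => Finsupp.sum_congr fun R2 _ => ?_
  have : connD a b R R1 R2 ↔ conn4 a b R R1 R2 := by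
    unfold connD conn4
    constructor
    · rintro (h | h)
      · exact h
      · exact h.trans _ _ _ (EqvGen.rel _ _ (Or.inl hz))
    · exact Or.inl
  simp only [this]

/-- the exact probability that the tip is joined to one of the walls -/
theorem exactD (a b : ℕ) (ha : Odd a) (hb : Odd b) :
    perc.real (TipD (a+1) b) = tipFormula a b := by
  have hc : Even (a+1) := ha.add_one
  have hc2 : 2 ≤ a + 1 := by obtain ⟨m, hm⟩ := ha; omega
  have hcb : Even (a+1+b+1) := by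
    obtain ⟨m, hm⟩ := ha; obtain ⟨n, hn⟩ := hb; exact ⟨m + n + 2, by omega⟩
  have e1 : Tendsto (fun M => perc.real (WinD (a+1) b M)) atTop
      (𝓝 (perc.real (TipD (a+1) b))) := by
    have h1 : Tendsto (fun M => perc (WinD (a+1) b M)) atTop
        (𝓝 (perc (⋃ M, WinD (a+1) b M))) :=
      tendsto_measure_iUnion_atTop (WinD_mono (a+1) b hc hc2 hb)
    rw [iUnion_WinD (a+1) b hc hc2 hb] at h1
    exact (ENNReal.tendsto_toReal (measure_ne_top perc (TipD (a+1) b))).comp h1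
  have e2 : Tendsto (fun M => ((perc.real (WinD (a+1) b M) : ℝ) : ℂ)) atTop
      (𝓝 ((perc.real (TipD (a+1) b) : ℝ) : ℂ)) :=
    (Complex.continuous_ofReal.tendsto _).comp e1
  have l0 := law1_odd (a+1+b+1) hcb
  have l1 := law1_even a ha
  have l2 := Pool.Agent.H980R3.Slit.psi1_law Pool.Agent.H980R3.Slit.t_C12 b hb
  have e3 := pairQ_tendsto (connD (a+1) b) (law1 (a+1+b+1+1)) (law1 (a+1)) (law b)
    ((mass (psiA (a+1+b+1)))⁻¹ • psiA (a+1+b+1))
    ((mass (psiB a))⁻¹ • psiB a) ((mass (psi1 b))⁻¹ • psi1 b) l0 l1 l2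
  have e4 : Tendsto (fun M => ((perc.real (WinD (a+1) b M) : ℝ) : ℂ)) atTop
      (𝓝 (pairQ (connD (a+1) b) ((mass (psiA (a+1+b+1)))⁻¹ • psiA (a+1+b+1))
        ((mass (psiB a))⁻¹ • psiB a) ((mass (psi1 b))⁻¹ • psi1 b))) := by
    refine e3.congr fun M => ?_
    rw [perc_WinD (a+1) b M]
  have e5 := tendsto_nhds_unique e2 e4
  have n0 : mass (psiA (a+1+b+1)) ≠ 0 := mass_psiA_ne _ hcb
  have n1 := mass_psiB_ne a ha
  have n2 : mass (psi1 b) ≠ 0 := Pool.Agent.H980R3.Slit.psi1_mass_ne b hb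
  have hg : pairQ (connD (a+1) b) (psiA (a+1+b+1)) (psiB a) (psi1 b) =
      (tipFormula a b : ℂ) * (mass (psiA (a+1+b+1)) * mass (psiB a) * mass (psi1 b)) := by
    rw [pairQ_psi (a+1) b hc hc2 hb]
    have h1 := glue_value a b ha hb
    have h2 := C15_pair (a+1) b ((a+1)/2+1) (by obtain ⟨m, hm⟩ := ha; omega) (psiA (a+1+b+1)) (psiB a) (psi1 b) (by
      intro R hR x y hxy
      have := Psi_supp (0 :: List.replicate a (1 : ℂ)) (by simpa using hc) R hR x y hxy
      rwa [List.length_cons, List.length_replicate] at this)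
    have e6 : up1 (List.replicate b 1) = psi1 b := by
      unfold up1 psi1
      rw [List.map_replicate, inv_one]
    rw [e6, show a + b + 2 = a + 1 + b + 1 by ring] at h1
    rw [← h2]
    exact h1
  rw [pairQ_smul1, pairQ_smul2, pairQ_smul3, hg] at e5
  have e7 : ((perc.real (TipD (a+1) b) : ℝ) : ℂ) = ((tipFormula a b : ℝ) : ℂ) := by
    rw [e5]
    field_simp
  exact_mod_cast e7

end Pool.Agent.H965.Both
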