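import Pool.Graph.R_seed8.H981R2.TP.C12a
import Pool.Graph.R_seed8.H988C.BotTop

/-!
Strips with a wired left wall: the first tile is deterministic. Stationarity of the vectors
`Psi (0, 1, …, 1)` and `Psi (0, 1, …, 1, 0)`.
-/

set_option autoImplicit false

namespace Pool.Agent.H965.Both

open Pool.Agent.H988R2.Perc hiding X
open Pool.Agent.H988R2.Perc.T20
open Pool.Agent.H988C (Cop Cs exch0)

/-- tile; the first tile is deterministic -/
noncomputable def tile1 (i : ℕ) (f : St →₀ ℂ) : St →₀ ℂ :=
  if i = 1 then Finsupp.mapDomain (St.act 1) f else tile i f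

noncomputable def fwd1 : ℕ → (St →₀ ℂ) → (St →₀ ℂ)
  | 0, f => f
  | L+1, f => tile1 (L+1) (fwd1 L f)

noncomputable def bwd1 : ℕ → (St →₀ ℂ) → (St →₀ ℂ)
  | 0, f => f
  | L+1, f => bwd1 L (tile1 (L+1) f)

/-- the double row with a deterministic first tile -/
noncomputable def T1 (L : ℕ) (f : St →₀ ℂ) : St →₀ ℂ :=
  Finsupp.mapDomain (St.cap 0) (bwd1 L (fwd1 L (Finsupp.mapDomain (St.ins 0) f)))

theorem tile1_smul (i : ℕ) (c : ℂ) (f : St →₀ ℂ) : tile1 i (c • f) = c • tile1 i f := by
  unfold tile1
  split_ifs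
  · rw [mapDomain_lin]
  · rw [tile_smul]

theorem fwd1_smul (L : ℕ) (c : ℂ) (f : St →₀ ℂ) : fwd1 L (c • f) = c • fwd1 L f := by
  induction L with
  | zero => rfl
  | succ L ih => simp only [fwd1]; rw [ih, tile1_smul]

theorem bwd1_smul (L : ℕ) (c : ℂ) (f : St →₀ ℂ) : bwd1 L (c • f) = c • bwd1 L f := by
  induction L generalizing f with
  | zero => rfl
  | succ L ih => simp only [bwd1]; rw [tile1_smul, ih]

theorem T1_smul (L : ℕ) (c : ℂ) (f : St →₀ ℂ) : T1 L (c • f) = c • T1 L f := by
  unfold T1
  rw [mapDomain_lin, fwd1_smul, bwd1_smul, mapDomain_lin]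

/-- inversion of the variable behind a `0` -/
theorem Psi_0inv (x : ℂ) (v : List ℂ) (hx : x ≠ 0) (h : Even v.length) :
    Psi (0 :: x :: v) = x^(v.length) • Psi (0 :: x⁻¹ :: v) := by
  have h1 := exch0 [] v x hx (by simpa using h)
  have h2 := exch0 [] v x⁻¹ (inv_ne_zero hx) (by simpa using h)
  simp only [List.nil_append, List.length_nil] at h1 h2
  have h3 := Psi_inv1 x (0 :: v) hx (by simpa using h.add_one)
  rw [List.length_cons, Nat.add_sub_cancel] at h3
  rw [h1, h3, h2, Pool.Agent.H988C.Cop_smul]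

theorem cap0_ins1 (R : St) : St.cap 0 (St.ins 1 R) = R := by
  apply St.ins_inj 0
  rw [← St.act_eq, show (1:ℕ) = 0 + 1 from rfl, St.act_ins_succ]

section
variable (k : ℕ) (tail : List ℂ)

theorem fwd1_eq (hE : Odd (k + tail.length)) (j : ℕ) (hj : j ≤ k) :
    fac (-q^2) (0 :: (List.replicate k 1 ++ tail)) •
      fwd1 (j+1) (Finsupp.mapDomain (St.ins 0) (Psi (0 :: (List.replicate k 1 ++ tail)))) =
    Psi ((0 :: (-q^2) :: List.replicate j 1) ++ (-q) :: (List.replicate (k-j) 1 ++ tail)) := by
  obtain ⟨t, ht⟩ := hE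
  induction j with
  | zero =>
    have h4 := q4
    have h := Psi_rec [0] (List.replicate k 1 ++ tail) (-q^2) (by
      simp only [List.length_cons, List.length_nil, List.length_append, List.length_replicate]
      exact ⟨t + 1, by omega⟩)
    have e : q^2 * (-q^2) = -q := by linear_combination -h4
    rw [e] at h
    simp only [List.length_cons, List.length_nil, Nat.zero_add, List.cons_append,
      List.nil_append] at h
    have e2 : fwd1 (0+1) (Finsupp.mapDomain (St.ins 0)
        (Psi (0 :: (List.replicate k 1 ++ tail)))) =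
        Finsupp.mapDomain (St.ins 1) (Psi (0 :: (List.replicate k 1 ++ tail))) := by
      simp only [fwd1, tile1, Nat.zero_add, if_true]
      rw [← Finsupp.mapDomain_comp]
      congr 1
      funext R
      exact St.act_succ_ins 0 R
    rw [e2, ← h]
    simp
  | succ j ih =>
    have ih' := ih (by omega)
    have e0 : fwd1 (j+1+1) (Finsupp.mapDomain (St.ins 0)
        (Psi (0 :: (List.replicate k 1 ++ tail)))) =
        tile (j+2) (fwd1 (j+1) (Finsupp.mapDomain (St.ins 0)
        (Psi (0 :: (List.replicate k 1 ++ tail))))) := by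
      rw [fwd1, tile1, if_neg (by omega)]
    rw [e0, ← tile_smul, ih']
    obtain ⟨m, hm⟩ : ∃ m, k - j = m + 1 := ⟨k - j - 1, by omega⟩
    have hm' : k - (j+1) = m := by omega
    rw [hm, hm']
    have hu : ((0:ℂ) :: (-q^2) :: List.replicate j (1:ℂ)).length = j + 2 := by simp
    have key := move_right ((0:ℂ) :: (-q^2) :: List.replicate j (1:ℂ))
      (List.replicate m 1 ++ tail) (by
      simp only [List.length_cons, List.length_replicate, List.length_append]
      exact ⟨t + 1, by omega⟩)
    rw [hu] at key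
    have e1 : ((0:ℂ) :: (-q^2) :: List.replicate (j+1) (1:ℂ)) ++ (-q) :: (List.replicate m 1 ++ tail)
        = ((0:ℂ) :: (-q^2) :: List.replicate j (1:ℂ)) ++ 1 :: (-q) :: (List.replicate m 1 ++ tail) := by
      rw [List.replicate_succ']; simp
    have e2 : ((0:ℂ) :: (-q^2) :: List.replicate j (1:ℂ)) ++ (-q) :: (List.replicate (m+1) 1 ++ tail)
        = ((0:ℂ) :: (-q^2) :: List.replicate j (1:ℂ)) ++ (-q) :: 1 :: (List.replicate m 1 ++ tail) := by
      rw [List.replicate_succ]; simp
    rw [e1, e2]
    exact key.symm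

theorem bwd1_eq (hE : Odd (k + tail.length)) (j : ℕ) (hj : j ≤ k) :
    bwd1 (j+1) (Psi ((0 :: (-q^2) :: List.replicate j 1) ++ (-q^2) ::
      (List.replicate (k-j) 1 ++ tail))) =
    Finsupp.mapDomain (St.act 1) (Psi (0 :: (-q^2) :: (-q^2) :: (List.replicate k 1 ++ tail))) := by
  obtain ⟨t, ht⟩ := hE
  induction j with
  | zero =>
    simp only [bwd1, tile1, Nat.zero_add, if_true, List.replicate_zero, Nat.sub_zero,
      List.cons_append, List.nil_append]
  | succ j ih =>
    have ih' := ih (by omega)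
    rw [← ih', bwd1, tile1, if_neg (by omega)]
    congr 1
    obtain ⟨m, hm⟩ : ∃ m, k - j = m + 1 := ⟨k - j - 1, by omega⟩
    have hm' : k - (j+1) = m := by omega
    rw [hm, hm']
    have hu : ((0:ℂ) :: (-q^2) :: List.replicate j (1:ℂ)).length = j + 2 := by simp
    have key := move_left ((0:ℂ) :: (-q^2) :: List.replicate j (1:ℂ))
      (List.replicate m 1 ++ tail) (by
      simp only [List.length_cons, List.length_replicate, List.length_append]
      exact ⟨t + 1, by omega⟩)
    rw [hu] at key
    have e1 : ((0:ℂ) :: (-q^2) :: List.replicate (j+1) (1:ℂ)) ++ (-q^2) :: (List.replicate m 1 ++ tail)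
        = ((0:ℂ) :: (-q^2) :: List.replicate j (1:ℂ)) ++ 1 :: (-q^2) :: (List.replicate m 1 ++ tail) := by
      rw [List.replicate_succ']; simp
    have e2 : ((0:ℂ) :: (-q^2) :: List.replicate j (1:ℂ)) ++ (-q^2) :: (List.replicate (m+1) 1 ++ tail)
        = ((0:ℂ) :: (-q^2) :: List.replicate j (1:ℂ)) ++ (-q^2) :: 1 :: (List.replicate m 1 ++ tail) := by
      rw [List.replicate_succ]; simp
    rw [e1, e2]
    exact key.symm

theorem fac_ne1 (ht : ∀ z ∈ tail, z = 0) : fac (-q^2) (0 :: (List.replicate k 1 ++ tail)) ≠ 0 := by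
  unfold fac
  have h4 := q4
  have hq := q_ne_zero
  refine List.prod_ne_zero ?_
  intro h
  rw [List.mem_map] at h
  obtain ⟨y, hy, h⟩ := h
  rw [List.mem_cons, List.mem_append] at hy
  rcases hy with rfl | hy | hy
  · have : (-q^2 - q^2 * 0) * (-q^2 * 0 - q^2) = q := by linear_combination h4
    rw [this] at h
    exact hq h
  · rw [List.mem_replicate] at hy
    rw [hy.2] at h
    have : (-q^2 - q^2 * 1) * (-q^2 * 1 - q^2) = 4 * q := by linear_combination 4 * h4
    rw [this] at h
    exact mul_ne_zero (by norm_num) hq h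
  · rw [ht y hy] at h
    have : (-q^2 - q^2 * 0) * (-q^2 * 0 - q^2) = q := by linear_combination h4
    rw [this] at h
    exact hq h

/-- stationarity, given the inversion at the right end -/
theorem stat_gen (hE : Odd (k + tail.length)) (ht : ∀ z ∈ tail, z = 0)
    (hinv : Psi ((0 :: (-q^2) :: List.replicate k 1) ++ (-q) :: tail) =
      (-q)^(k + 1 + tail.length) • Psi ((0 :: (-q^2) :: List.replicate k 1) ++ (-q^2) :: tail)) :
    T1 (k+1) (Psi (0 :: (List.replicate k 1 ++ tail))) = Psi (0 :: (List.replicate k 1 ++ tail)) := by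
  set l0 : List ℂ := List.replicate k 1 ++ tail with hl0
  set v0 := Psi (0 :: l0) with hv0
  have h4 := q4
  have h3 := q_cube
  have hq := q_ne_zero
  have hlen : l0.length = k + tail.length := by simp [hl0]
  have hf := fwd1_eq k tail hE k le_rfl
  have hb := bwd1_eq k tail hE k le_rfl
  rw [Nat.sub_self] at hf hb
  simp only [List.replicate_zero, List.nil_append] at hf hb
  -- inversion behind the zero
  have hinv1 : Psi (0 :: (-q^2) :: (-q^2) :: l0) =
      (-q^2)^(k + 1 + tail.length) • Psi (0 :: (-q) :: (-q^2) :: l0) := by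
    have h := Psi_0inv (-q^2) ((-q^2) :: l0) (neg_ne_zero.mpr (pow_ne_zero _ hq))
      (by rw [List.length_cons, hlen]; exact hE.add_one)
    have e : (-q^2)⁻¹ = -q := by
      rw [inv_eq_iff_eq_inv]
      have : (-q) ≠ 0 := neg_ne_zero.mpr hq
      apply mul_right_cancel₀ this
      rw [inv_mul_cancel₀ this]
      linear_combination h3
    rw [e, List.length_cons, hlen] at h
    rw [h, show k + tail.length + 1 = k + 1 + tail.length by omega]
  -- exchange
  have hexch : Psi (0 :: (-q^2) :: (-q) :: l0) =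
      Finsupp.mapDomain (St.act 1) (Psi (0 :: (-q) :: (-q^2) :: l0)) := by
    have h := Psi_exch [0] l0 (-q) (-q^2) (by
      rw [hlen]; simpa [add_comm] using hE.add_one)
    have e1 : q * (-q) - q^2 * (-q^2) = -q^2 + q := by linear_combination h4
    have e2 : q * (-q^2) - q^2 * (-q) = 0 := by ring
    have e3 : (-q^2) - (-q) = -q^2 + q := by ring
    rw [e1, e2, e3, zero_smul, zero_add] at h
    have hne : -q^2 + q ≠ 0 := by
      intro h
      have h1 : q * (1 - q) = 0 := by linear_combination h
      rcases mul_eq_zero.mp h1 with h2 | h2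
      · exact hq h2
      · exact q_ne_one (by linear_combination -h2)
    have h5 := congrArg (fun f => (-q^2 + q)⁻¹ • f) h
    simp only [smul_smul, inv_mul_cancel₀ hne, one_smul] at h5
    simpa using h5
  have hrec : Psi (0 :: (-q^2) :: (-q) :: l0) =
      fac (-q^2) (0 :: l0) • Finsupp.mapDomain (St.ins 1) v0 := by
    have h := Psi_rec [0] l0 (-q^2) (by rw [hlen]; simpa [add_comm] using hE.add_one)
    have e : q^2 * (-q^2) = -q := by linear_combination -h4
    rw [e] at h
    simpa using h
  have hcap : ∀ f : St →₀ ℂ, Finsupp.mapDomain (St.cap 0) (Finsupp.mapDomain (St.ins 1) f) = f := by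
    intro f
    rw [← Finsupp.mapDomain_comp]
    have : St.cap 0 ∘ St.ins 1 = id := funext cap0_ins1
    rw [this, Finsupp.mapDomain_id]
  have hmain : fac (-q^2) (0 :: l0) • T1 (k+1) v0 = fac (-q^2) (0 :: l0) • v0 := by
    have e0 : fac (-q^2) (0 :: l0) • T1 (k+1) v0 = Finsupp.mapDomain (St.cap 0)
        (bwd1 (k+1) (fac (-q^2) (0 :: l0) • fwd1 (k+1) (Finsupp.mapDomain (St.ins 0) v0))) := by
      unfold T1
      rw [bwd1_smul, mapDomain_lin]
    rw [e0, hf, hinv, bwd1_smul, hb, hinv1, mapDomain_lin (St.act 1), mapDomain_lin,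
      mapDomain_lin (St.cap 0) ((-q^2)^(k + 1 + tail.length)), smul_smul, ← hexch,
      hrec, mapDomain_lin, hcap]
    have e3 : (-q)^(k + 1 + tail.length) * (-q^2)^(k + 1 + tail.length) = 1 := by
      rw [← mul_pow]
      have : -q * -q^2 = 1 := by linear_combination h3
      rw [this, one_pow]
    rw [e3, one_smul]
  have hne : fac (-q^2) (0 :: l0) ≠ 0 := fac_ne1 k tail ht
  have h5 := congrArg (fun f => (fac (-q^2) (0 :: l0))⁻¹ • f) hmain
  simp only [smul_smul, inv_mul_cancel₀ hne, one_smul] at h5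
  exact h5

end

/-- inversion of `-q` -/
theorem inv_negq : (-q)⁻¹ = -q^2 := by
  have h3 := q_cube
  rw [inv_eq_iff_eq_inv]
  have : (-q^2) ≠ 0 := neg_ne_zero.mpr (pow_ne_zero _ q_ne_zero)
  apply mul_right_cancel₀ this
  rw [inv_mul_cancel₀ this]
  linear_combination h3

/-- stationarity, even widths (free right wall) -/
theorem stat_even (k : ℕ) (hk : Odd k) :
    T1 (k+1) (Psi (0 :: List.replicate k 1)) = Psi (0 :: List.replicate k 1) := by
  have h := stat_gen k [] (by simpa using hk) (by simp) (by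
    have := Psi_invN (-q) (0 :: (-q^2) :: List.replicate k 1) (neg_ne_zero.mpr q_ne_zero)
      (by simp only [List.length_cons, List.length_replicate]; exact hk.add_even (by decide : Even 2))
    rw [inv_negq] at this
    rw [this]
    simp)
  simpa using h

/-- stationarity, odd widths (wired right wall) -/
theorem stat_odd (k : ℕ) (hk : Even k) :
    T1 (k+1) (Psi (0 :: (List.replicate k 1 ++ [0]))) = Psi (0 :: (List.replicate k 1 ++ [0])) := by
  refine stat_gen k [0] (by simpa using hk.add_one) (by simp) ?_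
  have := Psi_inv0 (-q) (0 :: (-q^2) :: List.replicate k 1) (neg_ne_zero.mpr q_ne_zero)
    (by simp only [List.length_cons, List.length_replicate]; exact hk.add (by decide : Even 2))
  rw [inv_negq] at this
  rw [this]
  simp

end Pool.Agent.H965.Both
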