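import Pool.Graph.R_seed8.H981R2.TP.Main
import Pool.Agent.H965.Both.Law1

/-!
The window events for a general target (adapted from project TP).
-/

set_option autoImplicit false

namespace Pool.Agent.H965.Both

open Pool.Agent.H988R2.Perc hiding X
open Pool.Agent.H981R2.TP
open Pool.Agent.H981R2.TP.C5
open Relation
open Pool.Agent.H980R3.Slit (GP c04_mono)
open Pool.Agent.H980R3.Slit.C05 (gp_facts eqv_V slice_eq)

theorem c4g (h1 : S_C1) (h2 : S_C2) (h3 : S_C3) (a b M : ℕ) (ω : Conf) (ha : Even a) (hb : Odd b)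
    (s t : ℕ) (hst : s ≠ t)
    (hw : EqvGen (J4 a (Pool.Agent.H988R2.Perc.X (a+b+2) (actBit (oPast ω M)) M)
      (Pool.Agent.H988R2.Perc.X a (actBit (oFut ω M)) M)
      (Pool.Agent.H988R2.Perc.X b (actBit (oFutR2 a ω M)) M)) s t) :
    EqvGen (FF a b M ω) ((s : ℤ), 0) ((t : ℤ), 0) := by
  have haL : Odd (a + b + 2) := (ha.add_odd hb).add_even even_two
  have ha2 : a % 2 = 0 := Nat.even_iff.mp ha
  have hb2 : b % 2 = 1 := Nat.odd_iff.mp hb
  have key : ∀ x y : ℕ, EqvGen (J4 a (Pool.Agent.H988R2.Perc.X (a+b+2) (actBit (oPast ω M)) M)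
      (Pool.Agent.H988R2.Perc.X a (actBit (oFut ω M)) M)
      (Pool.Agent.H988R2.Perc.X b (actBit (oFutR2 a ω M)) M)) x y →
      x = y ∨ EqvGen (FF a b M ω) ((x : ℤ), 0) ((y : ℤ), 0) := by
    intro x y hxy
    induction hxy with
    | rel x y h =>
      by_cases hxy : x = y
      · exact Or.inl hxy
      right
      rcases h with h | ⟨h, hx, hy⟩ | ⟨hx, hy, h⟩
      · have ho : x % 2 = 1 ∧ y % 2 = 1 := by
          rcases (Pool.Agent.H988R2.Perc.X (a+b+2) (actBit (oPast ω M)) M).odd _ _ h with h' | h'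
          · exact absurd h' hxy
          · exact h'
        have hs : x ≤ a + b + 2 ∧ y ≤ a + b + 2 := by
          rcases X_supp (a+b+2) haL M _ _ _ h with h' | h'
          · exact absurd h' hxy
          · exact h'
        exact c04_mono (fun _ _ h => Or.inl h)
          ((h2 a b M ω x y ha hb ho.1 ho.2 hs.1 hs.2).1 h)
      · have ho : x % 2 = 1 ∧ y % 2 = 1 := by
          rcases (Pool.Agent.H988R2.Perc.X a (actBit (oFut ω M)) M).odd _ _ h with h' | h'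
          · exact absurd h' hxy
          · exact h'
        exact c04_mono (fun _ _ h => Or.inr (Or.inl h))
          ((h1 a M ω x y ha ho.1 ho.2 hx hy).1 h)
      · have hne : x - (a+2) ≠ y - (a+2) := by omega
        have ho : (x - (a+2)) % 2 = 1 ∧ (y - (a+2)) % 2 = 1 := by
          rcases (Pool.Agent.H988R2.Perc.X b (actBit (oFutR2 a ω M)) M).odd _ _ h with h' | h'
          · exact absurd h' hne
          · exact h'
        have hs : x - (a+2) ≤ b ∧ y - (a+2) ≤ b := by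
          rcases X_supp b hb M _ _ _ h with h' | h'
          · exact absurd h' hne
          · exact h'
        have h4 := (h3 a b M ω (x - (a+2)) (y - (a+2)) ha hb ho.1 ho.2 hs.1 hs.2).1 h
        have e1 : ((x - (a+2) : ℕ) : ℤ) + ((a : ℤ) + 2) = x := by omega
        have e2 : ((y - (a+2) : ℕ) : ℤ) + ((a : ℤ) + 2) = y := by omega
        rw [e1, e2] at h4
        exact c04_mono (fun _ _ h => Or.inr (Or.inr h)) h4
    | refl x => exact Or.inl rfl
    | symm x y _ ih =>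
      rcases ih with h | h
      · exact Or.inl h.symm
      · exact Or.inr (h.symm _ _)
    | trans x y z _ _ ih1 ih2 =>
      rcases ih1 with h | h
      · subst h; exact ih2
      · rcases ih2 with k | k
        · subst k; exact Or.inr h
        · exact Or.inr (h.trans _ _ _ k)
  rcases key s t hw with h | h
  · exact absurd h hst
  · exact h

theorem c5g (h1 : S_C1) (h2 : S_C2) (h3 : S_C3) (a b M : ℕ) (ω : Conf) (ha : Even a) (hb : Odd b)
    (s : ℕ) (hs : s % 2 = 1) (hsL : s ≤ a + b + 2)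
    (hEE : EqvGen (FF a b M ω) ((a : ℤ) + 1, 0) ((s : ℤ), 0)) :
    EqvGen (J4 a (Pool.Agent.H988R2.Perc.X (a+b+2) (actBit (oPast ω M)) M)
    (Pool.Agent.H988R2.Perc.X a (actBit (oFut ω M)) M)
    (Pool.Agent.H988R2.Perc.X b (actBit (oFutR2 a ω M)) M)) (a+1) s := by
  have ha1 : a % 2 = 0 := Nat.even_iff.mp ha
  have hb1 : b % 2 = 1 := Nat.odd_iff.mp hb
  set R := Pool.Agent.H988R2.Perc.X (a+b+2) (actBit (oPast ω M)) M with hR
  set R1 := Pool.Agent.H988R2.Perc.X a (actBit (oFut ω M)) M with hR1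
  set R2 := Pool.Agent.H988R2.Perc.X b (actBit (oFutR2 a ω M)) M with hR2
  set J := J4 a R R1 R2 with hJ
  -- the three gluing rules
  have g0 : ∀ x y : ℕ, x % 2 = 1 → y % 2 = 1 → x ≤ a + b + 2 → y ≤ a + b + 2 →
      EqvGen (F0 a b M ω) ((x : ℤ), 0) ((y : ℤ), 0) → EqvGen J (a+1) x → EqvGen J (a+1) y := by
    intro x y hx hy hxL hyL h hJx
    have h' := (h2 a b M ω x y ha hb hx hy hxL hyL).2 h
    exact hJx.trans _ _ _ (EqvGen.rel _ _ (Or.inl h'))
  have g1 : ∀ x y : ℕ, x % 2 = 1 → y % 2 = 1 → x ≤ a → y ≤ a →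
      EqvGen (F1 a M ω) ((x : ℤ), 0) ((y : ℤ), 0) → EqvGen J (a+1) x → EqvGen J (a+1) y := by
    intro x y hx hy hxL hyL h hJx
    have h' := (h1 a M ω x y ha hx hy hxL hyL).2 h
    exact hJx.trans _ _ _ (EqvGen.rel _ _ (Or.inr (Or.inl ⟨h', hxL, hyL⟩)))
  have g2 : ∀ x y : ℕ, x % 2 = 1 → y % 2 = 1 → a + 3 ≤ x → a + 3 ≤ y → x ≤ a + b + 2 →
      y ≤ a + b + 2 →
      EqvGen (F2 a b M ω) ((x : ℤ), 0) ((y : ℤ), 0) → EqvGen J (a+1) x → EqvGen J (a+1) y := by
    intro x y hx hy hax hay hxL hyL h hJx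
    have ex : (((x - (a + 2) : ℕ) : ℤ) + (a + 2)) = x := by omega
    have ey : (((y - (a + 2) : ℕ) : ℤ) + (a + 2)) = y := by omega
    have h' := (h3 a b M ω (x - (a + 2)) (y - (a + 2)) ha hb (by omega) (by omega) (by omega)
      (by omega)).2 (by rw [ex, ey]; exact h)
    exact hJx.trans _ _ _ (EqvGen.rel _ _ (Or.inr (Or.inr ⟨hax, hay, h'⟩)))
  -- walls
  have w0 : ∀ p q : ℤ × ℤ, p.1 = a + b + 2 → q.1 = a + b + 2 → EqvGen (F0 a b M ω) p q :=
    fun p q hp hq => EqvGen.rel _ _ (Or.inr ⟨hp, hq⟩)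
  have w2 : ∀ p q : ℤ × ℤ, p.1 = a + b + 2 → q.1 = a + b + 2 → EqvGen (F2 a b M ω) p q :=
    fun p q hp hq => EqvGen.rel _ _ (Or.inr ⟨hp, hq⟩)
  have hLc : ((a + b + 2 : ℕ) : ℤ) = (a : ℤ) + b + 2 := by push_cast; ring
  -- the invariant
  let P : ℤ × ℤ → Prop := fun p => ∃ x : ℕ, x % 2 = 1 ∧ x ≤ a + b + 2 ∧ EqvGen J (a+1) x ∧
    (EqvGen (F0 a b M ω) ((x : ℤ), 0) p ∨ (x ≤ a ∧ EqvGen (F1 a M ω) ((x : ℤ), 0) p) ∨
      (a + 3 ≤ x ∧ EqvGen (F2 a b M ω) ((x : ℤ), 0) p))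
  -- the vertices reached are vertices of the part
  have v0 : ∀ (x : ℕ) (p : ℤ × ℤ), x % 2 = 1 → x ≤ a + b + 2 →
      EqvGen (F0 a b M ω) ((x : ℤ), 0) p → V0 a b p := by
    intro x p hx hxL h
    exact eqv_V (V := V0 a b) (fun _ _ h => f0_V h) h (Or.inl ⟨le_rfl, by dsimp only; omega, by dsimp only; omega,
      by dsimp only; omega⟩)
  have v1 : ∀ (x : ℕ) (p : ℤ × ℤ), x % 2 = 1 → x ≤ a →
      EqvGen (F1 a M ω) ((x : ℤ), 0) p → V1 a p := by
    intro x p hx hxL h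
    exact eqv_V (V := V1 a) (fun _ _ h => f1_V h) h ⟨le_rfl, by dsimp only; omega,
      by dsimp only; omega, by dsimp only; omega⟩
  have v2 : ∀ (x : ℕ) (p : ℤ × ℤ), x % 2 = 1 → a + 3 ≤ x → x ≤ a + b + 2 →
      EqvGen (F2 a b M ω) ((x : ℤ), 0) p → V2 a b p := by
    intro x p hx hax hxL h
    exact eqv_V (V := V2 a b) (fun _ _ h => f2_V h) h (Or.inl ⟨le_rfl, by dsimp only; omega, by dsimp only; omega,
      by dsimp only; omega⟩)
  -- change of part
  have key0 : ∀ p, P p → V0 a b p → ∃ x : ℕ, x % 2 = 1 ∧ x ≤ a + b + 2 ∧ EqvGen J (a+1) x ∧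
      EqvGen (F0 a b M ω) ((x : ℤ), 0) p := by
    rintro p ⟨x, hx, hxL, hJx, h | ⟨hxa, h⟩ | ⟨hax, h⟩⟩ hV
    · exact ⟨x, hx, hxL, hJx, h⟩
    · obtain ⟨u1, u2, u3, u4⟩ := v1 x p hx hxa h
      rcases hV with ⟨t1, t2, t3, t4⟩ | t1
      · have e := slice_eq (p := p) (by omega) t3
        rw [e] at h
        refine ⟨p.1.toNat, by omega, by omega,
          g1 x p.1.toNat hx (by omega) hxa (by omega) h hJx, ?_⟩
        rw [← e]
        exact EqvGen.refl _
      · omega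
    · by_cases hp : p.1 = a + b + 2
      · refine ⟨a + b + 2, by omega, le_rfl, g2 x (a + b + 2) hx (by omega) hax (by omega) hxL le_rfl
          (h.trans _ _ _ (w2 p _ hp ?_)) hJx, w0 _ _ ?_ hp⟩
        · exact hLc
        · exact hLc
      · have hV2 := v2 x p hx hax hxL h
        rcases hV with ⟨t1, t2, t3, t4⟩ | t1
        · rcases hV2 with ⟨u1, u2, u3, u4⟩ | u1
          · have e := slice_eq (p := p) (by omega) t3
            rw [e] at h
            refine ⟨p.1.toNat, by omega, by omega,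
              g2 x p.1.toNat hx (by omega) hax (by omega) hxL (by omega) h hJx, ?_⟩
            rw [← e]
            exact EqvGen.refl _
          · exact absurd u1 hp
        · exact absurd t1 hp
  have key1 : ∀ p, P p → V1 a p → ∃ x : ℕ, x % 2 = 1 ∧ x ≤ a ∧ EqvGen J (a+1) x ∧
      EqvGen (F1 a M ω) ((x : ℤ), 0) p := by
    rintro p ⟨x, hx, hxL, hJx, h | ⟨hxa, h⟩ | ⟨hax, h⟩⟩ ⟨u1, u2, u3, u4⟩
    · rcases v0 x p hx hxL h with ⟨t1, t2, t3, t4⟩ | t1
      · have e := slice_eq (p := p) (by omega) t3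
        rw [e] at h
        refine ⟨p.1.toNat, by omega, by omega,
          g0 x p.1.toNat hx (by omega) hxL (by omega) h hJx, ?_⟩
        rw [← e]
        exact EqvGen.refl _
      · omega
    · exact ⟨x, hx, hxa, hJx, h⟩
    · rcases v2 x p hx hax hxL h with ⟨t1, t2, t3, t4⟩ | t1
      · omega
      · omega
  have key2 : ∀ p, P p → V2 a b p → ∃ x : ℕ, x % 2 = 1 ∧ a + 3 ≤ x ∧ x ≤ a + b + 2 ∧
      EqvGen J (a+1) x ∧ EqvGen (F2 a b M ω) ((x : ℤ), 0) p := by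
    rintro p ⟨x, hx, hxL, hJx, h | ⟨hxa, h⟩ | ⟨hax, h⟩⟩ hV
    · by_cases hp : p.1 = a + b + 2
      · refine ⟨a + b + 2, by omega, by omega, le_rfl, g0 x (a + b + 2) hx (by omega) hxL le_rfl
          (h.trans _ _ _ (w0 p _ hp ?_)) hJx, w2 _ _ ?_ hp⟩
        · exact hLc
        · exact hLc
      · rcases v0 x p hx hxL h with ⟨t1, t2, t3, t4⟩ | t1
        · rcases hV with ⟨u1, u2, u3, u4⟩ | u1
          · have e := slice_eq (p := p) (by omega) t3
            rw [e] at h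
            refine ⟨p.1.toNat, by omega, by omega, by omega,
              g0 x p.1.toNat hx (by omega) hxL (by omega) h hJx, ?_⟩
            rw [← e]
            exact EqvGen.refl _
          · exact absurd u1 hp
        · exact absurd t1 hp
    · obtain ⟨u1, u2, u3, u4⟩ := v1 x p hx hxa h
      rcases hV with ⟨t1, t2, t3, t4⟩ | t1
      · omega
      · omega
    · exact ⟨x, hx, hax, hxL, hJx, h⟩
  -- the steps
  have st0 : ∀ p p', V0 a b p → EqvGen (F0 a b M ω) p p' → P p → P p' := by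
    intro p p' hV he hP
    obtain ⟨x, hx, hxL, hJx, h⟩ := key0 p hP hV
    exact ⟨x, hx, hxL, hJx, Or.inl (h.trans _ _ _ he)⟩
  have st1 : ∀ p p', V1 a p → EqvGen (F1 a M ω) p p' → P p → P p' := by
    intro p p' hV he hP
    obtain ⟨x, hx, hxa, hJx, h⟩ := key1 p hP hV
    exact ⟨x, hx, by omega, hJx, Or.inr (Or.inl ⟨hxa, h.trans _ _ _ he⟩)⟩
  have st2 : ∀ p p', V2 a b p → EqvGen (F2 a b M ω) p p' → P p → P p' := by
    intro p p' hV he hP
    obtain ⟨x, hx, hax, hxL, hJx, h⟩ := key2 p hP hV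
    exact ⟨x, hx, hxL, hJx, Or.inr (Or.inr ⟨hax, h.trans _ _ _ he⟩)⟩
  have main : P ((a : ℤ) + 1, 0) ↔ P ((s : ℤ), 0) := by
    refine T22.eqvGen_iff P ?_ hEE
    rintro p p' (h | h | h)
    · obtain ⟨hV, hV'⟩ := f0_V h
      exact ⟨st0 p p' hV (EqvGen.rel _ _ h), st0 p' p hV' (EqvGen.symm _ _ (EqvGen.rel _ _ h))⟩
    · obtain ⟨hV, hV'⟩ := f1_V h
      exact ⟨st1 p p' hV (EqvGen.rel _ _ h), st1 p' p hV' (EqvGen.symm _ _ (EqvGen.rel _ _ h))⟩
    · obtain ⟨hV, hV'⟩ := f2_V h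
      exact ⟨st2 p p' hV (EqvGen.rel _ _ h), st2 p' p hV' (EqvGen.symm _ _ (EqvGen.rel _ _ h))⟩
  have hac : (((a + 1 : ℕ)) : ℤ) = (a : ℤ) + 1 := by push_cast; ring
  have hPa : P ((a : ℤ) + 1, 0) := ⟨a + 1, by omega, by omega, EqvGen.refl _,
    Or.inl (by rw [hac]; exact EqvGen.refl _)⟩
  obtain ⟨x, hx, hxL, hJx, h⟩ := key0 _ (main.1 hPa)
    (Or.inl ⟨le_rfl, by dsimp only; omega, by dsimp only; omega, by dsimp only; omega⟩)
  exact g0 x s hx hs hxL hsL h hJx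


theorem c6g (a b M : ℕ) (ω : Conf) (ha : Even a) (_ : Odd b) (s : ℕ) (hs : s % 2 = 1)
    (h : EqvGen (FF a b M ω) ((a : ℤ) + 1, 0) ((s : ℤ), 0)) :
    ∃ y : ℤ × ℤ, (y.1 - y.2 = a + b + 2 ∨ y.1 - y.2 = s) ∧
      Relation.ReflTransGen (TipAdj a b ω) (tip a) y := by
  by_contra hc
  have ha2 : (a : ℤ) % 2 = 0 := by
    obtain ⟨c, rfl⟩ := ha
    omega
  let P : ℤ × ℤ → Prop := fun p => (p.1 + p.2) % 2 = 1 ∧
    ReflTransGen (TipAdj a b ω) (tip a) (T22.toZ p)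
  have wired : ∀ p : ℤ × ℤ, p.1 = a + b + 2 → ¬ P p := by
    rintro p hp ⟨h1, h2⟩
    exact hc ⟨T22.toZ p, Or.inl (by rw [T22.toZ_diff p h1, hp]), h2⟩
  have step : ∀ p p' : ℤ × ℤ, OpenAdj ω (T22.toZ p) (T22.toZ p') →
      ((p.1 + p.2) % 2 = 1 ∧ (p'.1 + p'.2) % 2 = 1 ∧ 0 ≤ p.1 ∧ 0 ≤ p'.1 ∧
      p.1 ≤ a + b + 2 ∧ p'.1 ≤ a + b + 2) →
      ¬ (0 ≤ p.2 ∧ 0 ≤ p'.2 ∧ (p.1 = a + 1 ∨ p'.1 = a + 1)) →
      P p → P p' := by
    rintro p p' ho ⟨f1, f2, f3, f4, f5, f6⟩ hs ⟨h1, h2⟩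
    have d1 := T22.toZ_diff p f1
    have d2 := T22.toZ_diff p' f2
    have e1 := C6.toZ_sum p f1
    have e2 := C6.toZ_sum p' f2
    have hadj : TipAdj a b ω (T22.toZ p) (T22.toZ p') := by
      refine ⟨ho, by omega, by omega, ?_⟩
      rw [d1, d2, e1, e2]
      rintro ⟨g1, g2, g3⟩
      exact hs ⟨by omega, by omega, g3⟩
    exact ⟨f2, h2.tail hadj⟩
  have key : P ((a : ℤ) + 1, 0) ↔ P ((s : ℤ), 0) := by
    refine T22.eqvGen_iff P ?_ h
    intro p p' h1
    rcases C6.gp_gadj h1 with ⟨g1, g2, g3⟩ | ⟨g1, g2⟩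
    · have ho := T22.gadj_open g1
      obtain ⟨f1, f2, f3, f4, f5, f6⟩ := g2
      exact ⟨step p p' ho ⟨f1, f2, f3, f4, f5, f6⟩ g3,
        step p' p (T22.openAdj_symm ho) ⟨f2, f1, f4, f3, f6, f5⟩ (by tauto)⟩
    · exact ⟨fun h => absurd h (wired p g1), fun h => absurd h (wired p' g2)⟩
  have hP1 : P ((a : ℤ) + 1, 0) := by
    refine ⟨by dsimp only; omega, ?_⟩
    rw [C6.tip_eq a ha]
  obtain ⟨g1, g2⟩ := key.1 hP1
  exact hc ⟨T22.toZ ((s : ℤ), 0), Or.inr (T22.toZ_diff _ g1), g2⟩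

/-- paths of the slit strip from the tip are in the windows -/
theorem c7g (a b : ℕ) (ω : Conf) (ha : Even a) (y : ℤ × ℤ)
    (h : Relation.ReflTransGen (TipAdj a b ω) (tip a) y) :
    ∃ M0 : ℕ, ∀ M, M0 ≤ M →
      EqvGen (FF a b M ω) ((a : ℤ) + 1, 0) (y.1 - y.2, y.1 + y.2 - 1) := by
  have htip : ((tip a).1 - (tip a).2, (tip a).1 + (tip a).2 - 1) = ((a : ℤ) + 1, (0 : ℤ)) := by
    obtain ⟨k, hk⟩ := ha
    unfold tip
    ext
    · dsimp only; omega
    · dsimp only; omega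
  rw [← htip]
  induction h with
  | refl => exact ⟨0, fun M _ => EqvGen.refl _⟩
  | tail _ hs ih =>
    rename_i y z _
    obtain ⟨M0, ih⟩ := ih
    refine ⟨M0 + (|y.1 + y.2| + |z.1 + z.2| + 1).toNat, fun M hM => ?_⟩
    have h1 := Int.self_le_toNat (|y.1 + y.2| + |z.1 + z.2| + 1)
    have h2 : ((M0 + (|y.1 + y.2| + |z.1 + z.2| + 1).toNat : ℕ) : ℤ) ≤ M := by exact_mod_cast hM
    push_cast at h2
    exact EqvGen.trans _ _ _ (ih M (by omega))
      (C7.open_ff a b ω y z hs M (by omega))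

/-! ### forced edges between the columns 0 and 1 -/

open Classical in
/-- all the edges between the columns `0` and `1` are opened -/
noncomputable def fo (ω : Conf) : Conf := fun e =>
  if (e.2.2 = true ∧ e.1 = e.2.1 + 1) ∨ (e.2.2 = false ∧ e.1 = e.2.1) then true else ω e

theorem fo_one (ω : Conf) (r : ℤ) : fo ω (edgeOf 1 r) = true := by
  unfold fo edgeOf
  split_ifs with h1 h2
  all_goals first | rfl | (exfalso; simp at *; omega)

theorem fo_ne (ω : Conf) (i r : ℤ) (hi : i ≠ 1) : fo ω (edgeOf i r) = ω (edgeOf i r) := by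
  unfold fo edgeOf
  split_ifs with h1 h2
  all_goals first | rfl | (exfalso; simp at *; omega)

/-- the states see the forced edges only through `force` -/
theorem X_fo_past (L M : ℕ) (ω : Conf) :
    Pool.Agent.H988R2.Perc.X L (actBit (oPast (fo ω) M)) M =
      Pool.Agent.H988R2.Perc.X L (force (actBit (oPast ω M))) M := by
  apply T23.X_congr
  intro k i _ h1 _
  unfold force actBit oPast
  by_cases hi : i = 1
  · subst hi
    simp [fo_one]
  · rw [if_neg hi, fo_ne ω i _ (by exact_mod_cast hi)]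

theorem X_fo_fut (L M : ℕ) (ω : Conf) :
    Pool.Agent.H988R2.Perc.X L (actBit (oFut (fo ω) M)) M =
      Pool.Agent.H988R2.Perc.X L (force (actBit (oFut ω M))) M := by
  apply T23.X_congr
  intro k i _ h1 _
  unfold force actBit oFut
  by_cases hi : i = 1
  · subst hi
    simp [fo_one]
  · rw [if_neg hi, fo_ne ω i _ (by exact_mod_cast hi)]

theorem X_fo_futR (a b M : ℕ) (ω : Conf) :
    Pool.Agent.H988R2.Perc.X b (actBit (oFutR2 a (fo ω) M)) M =
      Pool.Agent.H988R2.Perc.X b (actBit (oFutR2 a ω M)) M := by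
  apply T23.X_congr
  intro k i _ h1 _
  unfold actBit oFutR2
  rw [fo_ne ω _ _ (by omega)]

/-- the vertices of the column `1` are joined -/
theorem col_one (a b M : ℕ) (ω : Conf) (ha : Even a) (ha1 : 1 ≤ a) (n : ℕ) (hn : n ≤ M) :
    EqvGen (FF a b M (fo ω)) (1, 2 * (n : ℤ)) (1, 0) ∧
    EqvGen (FF a b M (fo ω)) (1, -(2 * (n : ℤ))) (1, 0) := by
  induction n with
  | zero => exact ⟨EqvGen.refl _, EqvGen.refl _⟩
  | succ n ih =>
    obtain ⟨h1, h2⟩ := ih (by omega)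
    have hnM : ((n + 1 : ℕ) : ℤ) ≤ M := by exact_mod_cast hn
    push_cast at hnM
    have haa : (1 : ℤ) ≤ a := by exact_mod_cast ha1
    constructor
    · refine EqvGen.trans _ _ _ (EqvGen.symm _ _ (EqvGen.trans _ (0, 2 * (n : ℤ) + 1) _ ?_ ?_)) h1
      · exact EqvGen.rel _ _ (Or.inr (Or.inl ⟨1, 2 * (n : ℤ), le_rfl, haa, by omega, by omega,
          fo_one ω _, Or.inl ⟨by omega, rfl, by simp⟩⟩))
      · refine EqvGen.rel _ _ (Or.inr (Or.inl ⟨1, 2 * (n : ℤ) + 1, le_rfl, haa, by omega, by omega,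
          fo_one ω _, Or.inr ⟨by omega, by simp, ?_⟩⟩))
        apply Prod.ext <;> push_cast <;> ring_nf
    · refine EqvGen.trans _ _ _ (EqvGen.trans _ (0, -(2 * (n : ℤ) + 1)) _ ?_ ?_) h2
      · refine EqvGen.rel _ _ (Or.inl (Or.inl ⟨1, -(2 * ((n:ℤ) + 1)), le_rfl, by omega, by omega,
          by omega, fo_one ω _, Or.inl ⟨by omega, ?_, ?_⟩⟩))
        · apply Prod.ext <;> push_cast <;> ring_nf
        · apply Prod.ext <;> push_cast <;> ring_nf
      · refine EqvGen.rel _ _ (Or.inl (Or.inl ⟨1, -(2 * (n : ℤ) + 1), le_rfl, by omega, by omega,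
          by omega, fo_one ω _, Or.inr ⟨by omega, ?_, ?_⟩⟩))
        · apply Prod.ext <;> push_cast <;> ring_nf
        · apply Prod.ext <;> push_cast <;> ring_nf

end Pool.Agent.H965.Both
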